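import Mathlib

/-!
# Torus actions of complexity one: rings, real valuations, log discrepancies, thresholds

`k(t)[M]`, `M = ℤ^r`, is the ring of Laurent polynomials over `k(t)`; its fraction field is the
function field of a rational variety of dimension `r + 1` with an action of the torus `T` of
dimension `r` whose quotient is the line.
-/

set_option autoImplicit false

open scoped ENNReal

namespace Pool.Agent.H14.KV

open AddMonoidAlgebra (single)

/-- the Laurent ring `k(t)[M]`, `M = ℤ^r`; `single u f` is `f χ^u`, `F.coeff u` is the coefficient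
of `χ^u` -/
abbrev KM (k : Type) [Field k] (r : ℕ) := AddMonoidAlgebra (RatFunc k) (Fin r → ℤ)

variable {k : Type} [Field k] {r : ℕ}

/-- the order of a rational function at a point of the projective line; `some a` is the point
`t = a`, `none` is the point at infinity -/
noncomputable def ordZ (z : Option k) (f : RatFunc k) : ℤ :=
  match z with
  | some a => (f.num.rootMultiplicity a : ℤ) - f.denom.rootMultiplicity a
  | none => (f.denom.natDegree : ℤ) - f.num.natDegree

/-! ### polyhedral divisors -/

/-- a polyhedral divisor on the projective line: the polyhedron at `z` is the sum of the convex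
hull of the finite set `V z` of its vertices and the cone generated by `rays` -/
structure PDiv (k : Type) [Field k] (r : ℕ) where
  rays : Finset (Fin r → ℤ)
  V : Option k → Finset (Fin r → ℚ)
  nonempty : ∀ z, (V z).Nonempty
  fin : {z | V z ≠ {0}}.Finite

/-- `f` is a section of the divisor `D(u)` (and `u` is in the dual of the tail cone) -/
def Sec (D : PDiv k r) (u : Fin r → ℤ) (f : RatFunc k) : Prop :=
  f = 0 ∨ ((∀ ρ ∈ D.rays, 0 ≤ ∑ i, u i * ρ i) ∧
    ∀ z, ∀ p ∈ D.V z, 0 ≤ (ordZ z f : ℚ) + ∑ i, (u i : ℚ) * p i)

/-- the least common denominator of a rational point -/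
def mu (p : Fin r → ℚ) : ℕ := Finset.univ.lcm fun i => (p i).den

/-! ### real valuations -/

/-- a real valuation, trivial on `k`, of the fraction field of `k(t)[M]` (given on the ring
`k(t)[M]`; the value at `0` is irrelevant) -/
structure RVal (k : Type) [Field k] (r : ℕ) where
  val : KM k r → ℝ
  mul : ∀ F G, F ≠ 0 → G ≠ 0 → val (F * G) = val F + val G
  add : ∀ F G, F ≠ 0 → G ≠ 0 → F + G ≠ 0 → min (val F) (val G) ≤ val (F + G)
  triv : ∀ c : k, c ≠ 0 → val (single 0 (RatFunc.C c)) = 0

/-- `⟨u, w⟩` -/
def pr (u : Fin r → ℤ) (w : Fin r → ℝ) : ℝ := ∑ i, (u i : ℝ) * w i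

open Classical in
/-- the value of `F` for the valuation of the page `z` with the parameters `w`, `s`: the minimum
of `⟨u, w⟩ + s ord_z (F_u)` over the terms `F_u χ^u` of `F` -/
noncomputable def pageVal (z : Option k) (w : Fin r → ℝ) (s : ℝ) (F : KM k r) : ℝ :=
  if h : F.coeff.support.Nonempty then
    F.coeff.support.inf' h fun u => pr u w + s * ordZ z (F.coeff u) else 0

/-! ### log discrepancies -/

/-- the derivative of a rational function of `t` -/
noncomputable def dt (f : RatFunc k) : RatFunc k :=
  (algebraMap _ _ (Polynomial.derivative f.num) * algebraMap _ _ f.denom -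
    algebraMap _ _ f.num * algebraMap _ _ (Polynomial.derivative f.denom)) /
    (algebraMap _ _ f.denom) ^ 2

/-- the derivations `∂/∂t` (index `0`) and `χ_i ∂/∂χ_i` (index `i + 1`) of `k(t)[M]` -/
noncomputable def Dd (i : Fin (r + 1)) (F : KM k r) : KM k r :=
  Fin.cases (F.coeff.sum fun u f => single u (dt f))
    (fun j => F.coeff.sum fun u f => single u ((u j : RatFunc k) * f)) i

/-- the Jacobian: `dy_0 ∧ … ∧ dy_r = Jac y · ω`, `ω = dt ∧ dlog χ_1 ∧ … ∧ dlog χ_r` -/
noncomputable def Jac (y : Fin (r + 1) → KM k r) : KM k r :=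
  (Matrix.of fun i j => Dd i (y j)).det

/-- the data of `K_X + Δ` with `Δ` invariant under the torus: `N (K_X + Δ)` is the divisor of
`h χ^q`, where `K_X` is the divisor of the form `ω` -/
structure Pair (k : Type) [Field k] (r : ℕ) where
  N : ℕ
  pos : 0 < N
  q : Fin r → ℤ
  h : RatFunc k
  ne : h ≠ 0

/-- the log discrepancy of a real valuation: the supremum of
`- v (dlog y_0 ∧ … ∧ dlog y_r / ω) - v (h χ^q) / N` over all `y` with independent differentials -/
noncomputable def logDisc (P : Pair k r) (v : RVal k r) : ℝ≥0∞ :=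
  ⨆ (y : Fin (r + 1) → KM k r) (_ : Jac y ≠ 0),
    ENNReal.ofReal (∑ j, v.val (y j) - v.val (Jac y) - v.val (single P.q P.h) / P.N)

/-- the linear form which gives the log discrepancy on the page `z` -/
noncomputable def lin (P : Pair k r) (z : Option k) (w : Fin r → ℝ) (s : ℝ) : ℝ :=
  (if z = none then -s else s) - (pr P.q w + s * ordZ z P.h) / P.N

end Pool.Agent.H14.KV
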