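import Pool.Agent.H14.KV.Red

/-!
# The log discrepancy
-/

set_option autoImplicit false

open scoped ENNReal

namespace Pool.Agent.H14.KV

open AddMonoidAlgebra (single)

variable {k : Type} [Field k] {r : ℕ}

theorem coeff_sum_single (F : KM k r) (g : (Fin r → ℤ) → RatFunc k → RatFunc k)
    (hg : ∀ u, g u 0 = 0) (u : Fin r → ℤ) :
    (F.coeff.sum fun u f => (single u (g u f) : KM k r)).coeff u = g u (F.coeff u) := by
  classical
  rw [Finsupp.sum]
  have h : ∀ T : Finset (Fin r → ℤ), (∑ a ∈ T, (single a (g a (F.coeff a)) : KM k r)).coeff u =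
      ∑ a ∈ T, (single a (g a (F.coeff a)) : KM k r).coeff u := by
    intro T
    induction T using Finset.induction_on with
    | empty => simp
    | insert a T ha ih => rw [Finset.sum_insert ha, Finset.sum_insert ha, ← ih]; simp
  rw [h]
  rw [Finset.sum_eq_single u]
  · rw [coeff_single_self]
  · intro a _ ha
    rw [AddMonoidAlgebra.coeff_single, Finsupp.single_apply, if_neg ha]
  · intro hu
    rw [Finsupp.notMem_support_iff] at hu
    rw [hu, hg]
    simp

theorem dt_zero : dt (0 : RatFunc k) = 0 := by
  unfold dt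
  simp

theorem dt_one : dt (1 : RatFunc k) = 0 := by
  unfold dt
  simp

theorem dt_lt (a : k) : dt (lt a) = 1 := by
  unfold dt lt
  rw [RatFunc.num_algebraMap, RatFunc.denom_algebraMap]
  simp

theorem coeff_Dd_zero (F : KM k r) (u : Fin r → ℤ) : (Dd 0 F).coeff u = dt (F.coeff u) := by
  unfold Dd
  rw [Fin.cases_zero]
  exact coeff_sum_single F (fun _ f => dt f) (fun _ => dt_zero) u

theorem coeff_Dd_succ (i : Fin r) (F : KM k r) (u : Fin r → ℤ) :
    (Dd i.succ F).coeff u = (u i : RatFunc k) * F.coeff u := by
  unfold Dd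
  rw [Fin.cases_succ]
  exact coeff_sum_single F (fun u f => (u i : RatFunc k) * f) (fun _ => mul_zero _) u

theorem Dd_zero_single (u : Fin r → ℤ) (f : RatFunc k) :
    Dd 0 (single u f : KM k r) = single u (dt f) := by
  classical
  ext a
  rw [coeff_Dd_zero, AddMonoidAlgebra.coeff_single, AddMonoidAlgebra.coeff_single,
    Finsupp.single_apply, Finsupp.single_apply]
  split_ifs
  · rfl
  · exact dt_zero

theorem Dd_succ_single (i : Fin r) (u : Fin r → ℤ) (f : RatFunc k) :
    Dd i.succ (single u f : KM k r) = single u ((u i : RatFunc k) * f) := by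
  classical
  ext a
  rw [coeff_Dd_succ, AddMonoidAlgebra.coeff_single, AddMonoidAlgebra.coeff_single,
    Finsupp.single_apply, Finsupp.single_apply]
  split_ifs with h
  · rw [h]
  · exact mul_zero _

/-- the coordinates -/
noncomputable def crd (a : k) : Fin (r + 1) → KM k r :=
  Fin.cons (single 0 (lt a)) fun i => single (Pi.single i 1) 1

theorem crd_ne (a : k) (j : Fin (r + 1)) : (crd a j : KM k r) ≠ 0 := by
  unfold crd
  refine Fin.cases ?_ (fun i => ?_) j
  · rw [Fin.cons_zero]
    exact single_ne (lt_ne a)
  · rw [Fin.cons_succ]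
    exact single_ne one_ne_zero

theorem Jac_crd (a : k) :
    Jac (crd a : Fin (r + 1) → KM k r) = ∏ i : Fin r, (single (Pi.single i 1) 1 : KM k r) := by
  classical
  unfold Jac
  have h : (Matrix.of fun i j => Dd i ((crd a : Fin (r + 1) → KM k r) j)) =
      Matrix.diagonal (Fin.cons 1 fun i => single (Pi.single i 1) 1) := by
    ext i j : 2
    rw [Matrix.of_apply, Matrix.diagonal_apply]
    refine Fin.cases ?_ (fun i => ?_) i <;> refine Fin.cases ?_ (fun j => ?_) j
    · rw [if_pos rfl, Fin.cons_zero]
      unfold crd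
      rw [Fin.cons_zero, Dd_zero_single, dt_lt]
      rfl
    · rw [if_neg (Fin.succ_ne_zero j).symm]
      unfold crd
      rw [Fin.cons_succ, Dd_zero_single, dt_one]
      simp
    · rw [if_neg (Fin.succ_ne_zero i)]
      unfold crd
      rw [Fin.cons_zero, Dd_succ_single]
      simp
    · unfold crd
      rw [Fin.cons_succ, Dd_succ_single]
      by_cases hij : i = j
      · subst hij
        rw [if_pos rfl, Fin.cons_succ, Pi.single_eq_same]
        simp
      · rw [if_neg fun h => hij (Fin.succ_injective _ h), Pi.single_eq_of_ne hij]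
        simp
  rw [h, Matrix.det_diagonal, Fin.prod_univ_succ, Fin.cons_zero, one_mul]
  refine Finset.prod_congr rfl fun i _ => ?_
  rw [Fin.cons_succ]

/-- lower bound for every real valuation -/
theorem le_disc (P : Pair k r) (v : RVal k r) (z : Option k) (s : ℝ)
    (h : ∀ (u : Fin r → ℤ) (f : RatFunc k), f ≠ 0 →
      v.val (single u f) = pr u v.wt + s * ordZ z f) :
    ENNReal.ofReal (lin P z v.wt s) ≤ logDisc P v := by
  have hgen : ∀ a : k, s * ordZ z (lt a) = (if z = none then -s else s) →
      ENNReal.ofReal (lin P z v.wt s) ≤ logDisc P v := by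
    intro a ha
    unfold logDisc
    have hJ : Jac (crd a : Fin (r + 1) → KM k r) ≠ 0 := by
      rw [Jac_crd]
      exact Finset.prod_ne_zero_iff.2 fun i _ => single_ne one_ne_zero
    refine le_trans (le_of_eq ?_) (le_iSup₂ (crd a) hJ)
    congr 1
    rw [Jac_crd, v.val_prod _ _ fun i _ => single_ne one_ne_zero, Fin.sum_univ_succ]
    have e1 : ∑ i : Fin r, v.val ((crd a : Fin (r + 1) → KM k r) i.succ) =
        ∑ i : Fin r, v.val (single (Pi.single i 1) 1) := by
      refine Finset.sum_congr rfl fun i _ => ?_
      unfold crd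
      rw [Fin.cons_succ]
    have e2 : v.val ((crd a : Fin (r + 1) → KM k r) 0) = if z = none then -s else s := by
      unfold crd
      rw [Fin.cons_zero, h 0 _ (lt_ne a), pr_zero, zero_add, ha]
    rw [e1, e2, h P.q _ P.ne]
    unfold lin
    ring
  cases z with
  | none => exact hgen 0 (by rw [ordZ_lt_none, if_pos rfl]; push_cast; ring)
  | some a => exact hgen a (by rw [ordZ_lt_self, if_neg (by simp)]; push_cast; ring)

/-! ### upper bound for the pages -/

theorem ordP_neg (z : Option k) (p : Polynomial k) : ordP z (-p) = ordP z p := by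
  cases z with
  | none => simp [ordP]
  | some a =>
    simp only [ordP]
    have h : -p = Polynomial.C (-1) * p := by simp
    by_cases hp : p = 0
    · simp [hp]
    · rw [h, Polynomial.rootMultiplicity_mul (mul_ne_zero (by simp) hp),
        Polynomial.rootMultiplicity_C]
      simp

theorem ordP_derivative (z : Option k) {p : Polynomial k} (h : Polynomial.derivative p ≠ 0) :
    ordP z p - (if z = none then -1 else 1) ≤ ordP z (Polynomial.derivative p) := by
  cases z with
  | none =>
    simp only [ordP]
    have h1 := Polynomial.natDegree_derivative_le p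
    have h2 : p.natDegree ≠ 0 := by
      intro h0
      apply h
      rw [Polynomial.eq_C_of_natDegree_eq_zero h0, Polynomial.derivative_C]
    rw [if_pos trivial]
    omega
  | some a =>
    simp only [ordP]
    have h1 := Polynomial.rootMultiplicity_sub_one_le_derivative_rootMultiplicity_of_ne_zero p a h
    rw [if_neg (by simp)]
    omega

theorem ordZ_dt (z : Option k) {f : RatFunc k} (hf : f ≠ 0) (h : dt f ≠ 0) :
    ordZ z f - (if z = none then -1 else 1) ≤ ordZ z (dt f) := by
  set n := f.num with hn
  set d := f.denom with hd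
  have hn0 : n ≠ 0 := RatFunc.num_ne_zero hf
  have hd0 : d ≠ 0 := f.denom_ne_zero
  set Q : Polynomial k := Polynomial.derivative n * d + -(n * Polynomial.derivative d) with hQ
  have e : dt f = algebraMap _ _ Q / algebraMap _ _ (d ^ 2) := by
    unfold dt
    rw [hQ, map_add, map_mul, map_neg, map_mul, map_pow]
    ring
  have hQ0 : Q ≠ 0 := by
    intro h0
    rw [e, h0, map_zero, zero_div] at h
    exact h rfl
  have h2 : ordP z (d ^ 2) = 2 * ordP z d := by
    rw [pow_two, ordP_mul z hd0 hd0]
    ring
  rw [e, ordZ_div z hQ0 (pow_ne_zero 2 hd0), h2, ordZ_eq, ← hn, ← hd]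
  have hA : Polynomial.derivative n * d ≠ 0 →
      ordP z n + ordP z d - (if z = none then -1 else 1) ≤
        ordP z (Polynomial.derivative n * d) := by
    intro h3
    have h4 := left_ne_zero_of_mul h3
    have h5 := ordP_derivative z h4
    rw [ordP_mul z h4 hd0]
    linarith
  have hB : -(n * Polynomial.derivative d) ≠ 0 →
      ordP z n + ordP z d - (if z = none then -1 else 1) ≤
        ordP z (-(n * Polynomial.derivative d)) := by
    intro h3
    have h3' : n * Polynomial.derivative d ≠ 0 := by
      intro h0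
      rw [h0, neg_zero] at h3
      exact h3 rfl
    have h4 := right_ne_zero_of_mul h3'
    have h5 := ordP_derivative z h4
    rw [ordP_neg, ordP_mul z hn0 h4]
    linarith
  have hmain : ordP z n + ordP z d - (if z = none then -1 else 1) ≤ ordP z Q := by
    by_cases h3 : Polynomial.derivative n * d = 0
    · rw [hQ, h3, zero_add] at hQ0 ⊢
      exact hB hQ0
    by_cases h4 : -(n * Polynomial.derivative d) = 0
    · rw [hQ, h4, add_zero] at hQ0 ⊢
      exact hA hQ0
    exact (le_min (hA h3) (hB h4)).trans (ordP_add z hQ0)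
  linarith

theorem page_Dd_zero (z : Option k) (w : Fin r → ℝ) {s : ℝ} (hs : 0 ≤ s) {F : KM k r}
    (h : Dd 0 F ≠ 0) :
    pageVal z w s F - (if z = none then -s else s) ≤ pageVal z w s (Dd 0 F) := by
  refine le_pageVal z w s h fun u hu => ?_
  rw [coeff_Dd_zero] at hu ⊢
  have hF : F.coeff u ≠ 0 := by
    intro h0
    rw [h0, dt_zero] at hu
    exact hu rfl
  have h1 := ordZ_dt z hF hu
  have h2 := pageVal_le z w s hF
  have h3 : s * ((ordZ z (F.coeff u) - (if z = none then -1 else 1) : ℤ) : ℝ) ≤
      s * (ordZ z (dt (F.coeff u)) : ℝ) := mul_le_mul_of_nonneg_left (by exact_mod_cast h1) hs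
  have h4 : s * ((ordZ z (F.coeff u) - (if z = none then -1 else 1) : ℤ) : ℝ) =
      s * (ordZ z (F.coeff u) : ℝ) - (if z = none then -s else s) := by
    split_ifs <;> push_cast <;> ring
  linarith

theorem page_Dd_succ (z : Option k) (w : Fin r → ℝ) {s : ℝ} (i : Fin r)
    {F : KM k r} (h : Dd i.succ F ≠ 0) : pageVal z w s F ≤ pageVal z w s (Dd i.succ F) := by
  refine le_pageVal z w s h fun u hu => ?_
  rw [coeff_Dd_succ] at hu ⊢
  have hF : F.coeff u ≠ 0 := right_ne_zero_of_mul hu
  have hu0 : (u i : RatFunc k) ≠ 0 := left_ne_zero_of_mul hu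
  have h2 := pageVal_le z w s hF
  have h3 : ordZ z (u i : RatFunc k) = 0 := by
    have e : (u i : RatFunc k) = RatFunc.C (u i : k) := by simp
    rw [e] at hu0 ⊢
    refine ordZ_C z fun h0 => hu0 ?_
    rw [h0, map_zero]
  rw [ordZ_mul z hu0 hF, h3, zero_add]
  exact h2

theorem disc_page_le (P : Pair k r) (z : Option k) (w : Fin r → ℝ) (s : ℝ) (hs : 0 ≤ s) :
    logDisc P (page z w s hs) ≤ ENNReal.ofReal (lin P z w s) := by
  classical
  unfold logDisc
  refine iSup₂_le fun y hy => ENNReal.ofReal_le_ofReal ?_
  change ∑ j, pageVal z w s (y j) - pageVal z w s (Jac y) -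
    pageVal z w s (single P.q P.h) / P.N ≤ lin P z w s
  rw [pageVal_single z w s P.q P.ne]
  have hmain : ∑ j, pageVal z w s (y j) - (if z = none then -s else s) ≤
      pageVal z w s (Jac y) := by
    have hJ : Jac y = ∑ σ : Equiv.Perm (Fin (r + 1)),
        Equiv.Perm.sign σ • ∏ j, Dd (σ j) (y j) := by
      unfold Jac
      rw [Matrix.det_apply]
      rfl
    rw [hJ] at hy ⊢
    refine (page z w s hs).val_sum_ge _ _ _ (fun σ _ hne => ?_) hy
    have hprod : ∏ j, Dd (σ j) (y j) ≠ 0 := by
      intro h0
      rw [h0, smul_zero] at hne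
      exact hne rfl
    have hval : (page z w s hs).val (Equiv.Perm.sign σ • ∏ j, Dd (σ j) (y j)) =
        (page z w s hs).val (∏ j, Dd (σ j) (y j)) := by
      rcases Int.units_eq_one_or (Equiv.Perm.sign σ) with h1 | h1
      · rw [h1, one_smul]
      · rw [h1, Units.neg_smul, one_smul]
        have e : -(∏ j, Dd (σ j) (y j)) = single 0 (RatFunc.C (-1)) * ∏ j, Dd (σ j) (y j) := by
          have : (single 0 (RatFunc.C (-1)) : KM k r) = -1 := by
            rw [map_neg, map_one, AddMonoidAlgebra.single_neg]
            rfl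
          rw [this, neg_one_mul]
        have hm : (single 0 (RatFunc.C (-1)) : KM k r) ≠ 0 := single_ne (by simp)
        rw [e, (page z w s hs).mul _ _ hm hprod, (page z w s hs).triv (-1) (by simp), zero_add]
    rw [hval]
    have hne' : ∀ j ∈ Finset.univ, Dd (σ j) (y j) ≠ 0 := fun j hj =>
      Finset.prod_ne_zero_iff.1 hprod j hj
    rw [(page z w s hs).val_prod _ _ hne']
    have hterm : ∀ j, pageVal z w s (y j) - (if σ j = 0 then (if z = none then -s else s) else 0) ≤
        pageVal z w s (Dd (σ j) (y j)) := by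
      intro j
      have hj := hne' j (Finset.mem_univ j)
      by_cases h0 : σ j = 0
      · rw [h0] at hj
        rw [if_pos h0, h0]
        exact page_Dd_zero z w hs hj
      · obtain ⟨i, hi⟩ := Fin.exists_succ_eq.2 h0
        rw [if_neg h0, sub_zero, ← hi]
        rw [← hi] at hj
        exact page_Dd_succ z w i hj
    have hsum : ∑ j, (if σ j = 0 then (if z = none then -s else s) else 0) =
        (if z = none then -s else s) := by
      rw [Finset.sum_eq_single (σ.symm 0)]
      · rw [if_pos (Equiv.apply_symm_apply σ 0)]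
      · intro j _ hj
        rw [if_neg]
        intro h0
        apply hj
        rw [← h0, Equiv.symm_apply_apply]
      · intro h0
        exact absurd (Finset.mem_univ _) h0
    calc ∑ j, pageVal z w s (y j) - (if z = none then -s else s)
        = ∑ j, (pageVal z w s (y j) - (if σ j = 0 then (if z = none then -s else s) else 0)) := by
          rw [Finset.sum_sub_distrib, hsum]
      _ ≤ ∑ j, pageVal z w s (Dd (σ j) (y j)) := Finset.sum_le_sum fun j _ => hterm j
  unfold lin
  linarith

theorem page_single (z : Option k) (w : Fin r → ℝ) (s : ℝ) (hs : 0 ≤ s) (u : Fin r → ℤ)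
    {f : RatFunc k} (hf : f ≠ 0) : (page z w s hs).val (single u f) = pr u w + s * ordZ z f :=
  pageVal_single z w s u hf

theorem page_wt (z : Option k) (w : Fin r → ℝ) (s : ℝ) (hs : 0 ≤ s) :
    (page z w s hs).wt = w := by
  funext i
  unfold RVal.wt
  rw [page_single z w s hs _ one_ne_zero, ordZ_one]
  unfold pr
  simp [Pi.single_apply]

/-- the log discrepancy on the pages -/
theorem disc_page (P : Pair k r) (z : Option k) (w : Fin r → ℝ) (s : ℝ) (hs : 0 ≤ s) :
    logDisc P (page z w s hs) = ENNReal.ofReal (lin P z w s) := by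
  refine le_antisymm (disc_page_le P z w s hs) ?_
  have h := le_disc P (page z w s hs) z s fun u f hf => by
    rw [page_wt]
    exact page_single z w s hs u hf
  rwa [page_wt] at h

end Pool.Agent.H14.KV
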