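import Pool.Agent.H14.KV.Main

/-!
# A torus invariant valuation computes the threshold
-/

set_option autoImplicit false

open scoped ENNReal
open Filter Topology

namespace Pool.Agent.H14.KV

open AddMonoidAlgebra (single)

variable {k : Type} [Field k] {r : ℕ} {D : PDiv k r}

theorem pageVal_smul (z : Option k) {c : ℝ} (hc : 0 ≤ c) (w : Fin r → ℝ) (s : ℝ) {F : KM k r}
    (hF : F ≠ 0) : pageVal z (c • w) (c * s) F = c * pageVal z w s F := by
  have hpr : ∀ u : Fin r → ℤ, pr u (c • w) = c * pr u w := by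
    intro u
    unfold pr
    rw [Finset.mul_sum]
    exact Finset.sum_congr rfl fun i _ => by rw [Pi.smul_apply, smul_eq_mul]; ring
  apply le_antisymm
  · obtain ⟨u, hu, e⟩ := pageVal_mem z w s hF
    refine (pageVal_le z _ _ hu).trans (le_of_eq ?_)
    rw [e, hpr]
    ring
  · refine le_pageVal z _ _ hF fun u hu => ?_
    rw [hpr]
    have h := mul_le_mul_of_nonneg_left (pageVal_le z w s hu) hc
    linarith

theorem centered_smul {m : Ideal (ring D)} {z : Option k} {w : Fin r → ℝ} {s : ℝ} {hs : 0 ≤ s}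
    (h : Centered m (page z w s hs)) {c : ℝ} (hc : 0 < c) :
    Centered m (page z (c • w) (c * s) (mul_nonneg hc.le hs)) := by
  intro F hF
  have e : (page z (c • w) (c * s) (mul_nonneg hc.le hs)).val F = c * (page z w s hs).val F :=
    pageVal_smul z hc.le w s hF
  rw [e]
  have h1 := h F hF
  refine ⟨mul_nonneg hc.le h1.1, ?_⟩
  rw [mul_pos_iff_of_pos_left hc]
  exact h1.2

theorem pr_tendsto {W : ℕ → Fin r → ℝ} {w : Fin r → ℝ} (h : Tendsto W atTop (𝓝 w))
    (u : Fin r → ℤ) : Tendsto (fun n => pr u (W n)) atTop (𝓝 (pr u w)) := by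
  unfold pr
  refine tendsto_finsetSum _ fun i _ => ?_
  exact Tendsto.const_mul _ ((tendsto_pi_nhds.1 h) i)

/-- **existence**: a torus invariant valuation computes the threshold -/
theorem exists_page_LCP [IsAlgClosed k] {m : Ideal (ring D)} (hm : m.IsMaximal) (hmT : Invt m)
    (hm0 : m ≠ ⊥) {P : Pair k r} (hklt : Klt P m) {a : ℕ → Ideal (ring D)} (ha : GSeq m a)
    (hc : lct P m a ≠ ⊤) : ∃ (z : Option k) (w : Fin r → ℝ) (s : ℝ) (hs : 0 ≤ s),
      page z w s hs ∈ LCP P m a := by
  classical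
  set c := (lct P m a).toReal with hcdef
  have hc0 : 0 ≤ c := ENNReal.toReal_nonneg
  have hlc : lct P m a = ENNReal.ofReal c := (ENNReal.ofReal_toReal hc).symm
  -- a minimising sequence of invariant valuations
  have hseq : ∀ n : ℕ, ∃ (z : Option k) (w : Fin r → ℝ) (s : ℝ) (hs : 0 ≤ s),
      Centered m (page z w s hs) ∧ ‖(w, s)‖ = 1 ∧
      ∀ i, 0 < i → ∀ F ∈ a i, (F : KM k r) ≠ 0 → lin P z w s * i ≤
        (c + 1 / ((n : ℝ) + 1)) * pageVal z w s (F : KM k r) := by
    intro n
    have hb : (0 : ℝ) < c + 1 / ((n : ℝ) + 1) := by positivity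
    have hlt : lct P m a < ENNReal.ofReal (c + 1 / ((n : ℝ) + 1)) := by
      rw [hlc]
      exact (ENNReal.ofReal_lt_ofReal_iff hb).2 (by
        have : (0 : ℝ) < 1 / ((n : ℝ) + 1) := by positivity
        linarith)
    obtain ⟨v, hv⟩ := iInf_lt_iff.1 hlt
    obtain ⟨hvc, hv⟩ := iInf_lt_iff.1 hv
    obtain ⟨z, s, hs, h⟩ := v.exists_inv
    obtain ⟨hcen, hdisc, hval⟩ := invariant hm hmT P ha hvc hs h
    set w := v.wt with hw
    -- the point is not zero
    obtain ⟨F₁, hF₁, hF₁0⟩ : ∃ F ∈ m, (F : KM k r) ≠ 0 := by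
      by_contra hcon
      push Not at hcon
      apply hm0
      rw [eq_bot_iff]
      intro F hF
      exact Subtype.ext (hcon F hF)
    have hne : ((w, s) : (Fin r → ℝ) × ℝ) ≠ 0 := by
      intro h0
      have hw0 : w = 0 := congrArg Prod.fst h0
      have hs0 : s = 0 := congrArg Prod.snd h0
      have h1 := (hcen F₁ hF₁0).2.2 hF₁
      have h2 : (page z w s hs).val F₁ ≤ 0 := by
        obtain ⟨u, hu, e⟩ := pageVal_mem z w s hF₁0
        have e' : (page z w s hs).val F₁ = pr u w + s * ordZ z ((F₁ : KM k r).coeff u) := e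
        rw [e', hw0, hs0]
        unfold pr
        simp
      linarith
    have hnorm : 0 < ‖((w, s) : (Fin r → ℝ) × ℝ)‖ := norm_pos_iff.2 hne
    set b : ℝ := ‖((w, s) : (Fin r → ℝ) × ℝ)‖⁻¹ with hbdef
    have hb0 : 0 < b := inv_pos.2 hnorm
    -- the inequality before the normalisation
    have hin : ∀ i, 0 < i → ∀ F ∈ a i, (F : KM k r) ≠ 0 → lin P z w s * i ≤
        (c + 1 / ((n : ℝ) + 1)) * pageVal z w s (F : KM k r) := by
      intro i hi F hF hF0
      have hi' : (0 : ℝ) < i := by exact_mod_cast hi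
      have h1 : logDisc P (page z w s hs) / valG (page z w s hs) a ≤
          ENNReal.ofReal (c + 1 / ((n : ℝ) + 1)) :=
        (ENNReal.div_le_div hdisc hval).trans hv.le
      have hvt : valG (page z w s hs) a ≠ ⊤ :=
        ne_top_of_le_ne_top ENNReal.ofReal_ne_top (valG_le a hi hF hF0)
      rw [ENNReal.div_le_iff_le_mul (Or.inr ENNReal.ofReal_ne_top) (Or.inl hvt)] at h1
      have h2 : logDisc P (page z w s hs) ≤ ENNReal.ofReal (c + 1 / ((n : ℝ) + 1)) *
          ENNReal.ofReal ((page z w s hs).val F / i) :=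
        h1.trans (mul_le_mul_right (valG_le a hi hF hF0) _)
      rw [disc_page, ← ENNReal.ofReal_mul hb.le] at h2
      have hFn : 0 ≤ (page z w s hs).val F := (hcen F hF0).1
      have h3 : lin P z w s ≤ (c + 1 / ((n : ℝ) + 1)) * ((page z w s hs).val F / i) :=
        (ENNReal.ofReal_le_ofReal_iff (by positivity)).1 h2
      have h4 : lin P z w s * i ≤ (c + 1 / ((n : ℝ) + 1)) * ((page z w s hs).val F / i) * i :=
        mul_le_mul_of_nonneg_right h3 hi'.le
      refine h4.trans (le_of_eq ?_)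
      have h5 : (page z w s hs).val F = pageVal z w s (F : KM k r) := rfl
      rw [h5]
      field_simp
    refine ⟨z, b • w, b * s, mul_nonneg hb0.le hs, centered_smul hcen hb0, ?_, ?_⟩
    · have e : ((b • w, b * s) : (Fin r → ℝ) × ℝ) = b • (w, s) := rfl
      rw [e, norm_smul, Real.norm_of_nonneg hb0.le, hbdef, inv_mul_cancel₀ hnorm.ne']
    · intro i hi F hF hF0
      have e : lin P z (b • w) (b * s) = b * lin P z w s := lin_smul P z b w s
      rw [pageVal_smul z hb0.le w s hF0, e]
      have h1 := mul_le_mul_of_nonneg_left (hin i hi F hF hF0) hb0.le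
      linarith
  choose Z W S hS hcen hnorm hlin using hseq
  -- a convergent subsequence
  obtain ⟨⟨w, s⟩, hws, ψ, hψ, hconv⟩ := (isCompact_sphere (0 : (Fin r → ℝ) × ℝ) 1).tendsto_subseq
    (x := fun n => (W n, S n)) (fun n => by simp [hnorm n])
  have hWψ : Tendsto (fun n => W (ψ n)) atTop (𝓝 w) :=
    (continuous_fst.tendsto _).comp hconv
  have hSψ : Tendsto (fun n => S (ψ n)) atTop (𝓝 s) :=
    (continuous_snd.tendsto _).comp hconv
  have hs : 0 ≤ s := ge_of_tendsto' hSψ fun n => hS _
  have hws1 : ‖((w, s) : (Fin r → ℝ) × ℝ)‖ = 1 := by simpa using hws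
  by_cases hcase : ∃ z, ∃ᶠ n in atTop, Z (ψ n) = z
  · -- infinitely many points on the same page
    obtain ⟨z, hz⟩ := hcase
    obtain ⟨θ, hθ, hzθ⟩ := extraction_of_frequently_atTop hz
    have hφ : Tendsto (fun n => ψ (θ n)) atTop atTop := hψ.tendsto_atTop.comp hθ.tendsto_atTop
    have hW : Tendsto (fun n => W (ψ (θ n))) atTop (𝓝 w) := hWψ.comp hθ.tendsto_atTop
    have hS' : Tendsto (fun n => S (ψ (θ n))) atTop (𝓝 s) := hSψ.comp hθ.tendsto_atTop
    refine ⟨z, w, s, hs, limit hm hm0 hklt ha hc Z W S hS hcen hlin z w s hs (lin P z w s)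
      (fun n => ψ (θ n)) hφ (fun u f _ => ?_) ?_ le_rfl fun hw0 hs0 => ?_⟩
    · have h1 : (fun n => pr u (W (ψ (θ n))) + S (ψ (θ n)) * (ordZ (Z (ψ (θ n))) f : ℝ)) =
          fun n => pr u (W (ψ (θ n))) + S (ψ (θ n)) * (ordZ z f : ℝ) := by
        funext n
        rw [hzθ n]
      rw [h1]
      exact (pr_tendsto hW u).add (hS'.mul_const _)
    · have h1 : (fun n => lin P (Z (ψ (θ n))) (W (ψ (θ n))) (S (ψ (θ n)))) =
          fun n => lin P z (W (ψ (θ n))) (S (ψ (θ n))) := by
        funext n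
        rw [hzθ n]
      rw [h1]
      unfold lin
      refine Tendsto.sub ?_ (((pr_tendsto hW P.q).add (hS'.mul_const _)).div_const _)
      split_ifs
      · exact hS'.neg
      · exact hS'
    · exfalso
      rw [hw0, hs0] at hws1
      simp at hws1
  · -- every page occurs finitely often
    push Not at hcase
    have hev : ∀ T : Set (Option k), T.Finite → ∀ᶠ n in atTop, Z (ψ n) ∉ T := by
      intro T hT
      have h1 : ∀ z ∈ T, ∀ᶠ n in atTop, Z (ψ n) ≠ z := fun z _ => hcase z
      have h2 := (Filter.eventually_all_finite hT).2 h1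
      filter_upwards [h2] with n hn hmem
      exact hn _ hmem rfl
    refine ⟨none, w, 0, le_rfl, limit hm hm0 hklt ha hc Z W S hS hcen hlin none w 0 le_rfl
      (s - pr P.q w / P.N) ψ hψ.tendsto_atTop (fun u f _ => ?_) ?_ ?_ fun hw0 _ => ?_⟩
    · rw [zero_mul, add_zero]
      have h1 := hev _ (fin_ord f)
      refine (pr_tendsto hWψ u).congr' ?_
      filter_upwards [h1] with n hn
      have hn' : ordZ (Z (ψ n)) f = 0 := not_not.1 hn
      rw [hn']
      simp
    · have h1 := hev _ ((fin_ord P.h).union (Set.finite_singleton none))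
      have h2 : Tendsto (fun n => S (ψ n) - pr P.q (W (ψ n)) / P.N) atTop
          (𝓝 (s - pr P.q w / P.N)) := hSψ.sub ((pr_tendsto hWψ P.q).div_const _)
      refine h2.congr' ?_
      filter_upwards [h1] with n hn
      rw [Set.mem_union, not_or] at hn
      have hn1 : ordZ (Z (ψ n)) P.h = 0 := not_not.1 hn.1
      have hn2 : Z (ψ n) ≠ none := fun h => hn.2 (Set.mem_singleton_iff.2 h)
      unfold lin
      rw [if_neg hn2, hn1]
      simp
    · unfold lin
      simp only [if_true, neg_zero, zero_mul, add_zero, zero_sub]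
      linarith
    · have hs1 : s = 1 := by
        rw [hw0] at hws1
        rw [Prod.norm_mk, norm_zero, max_eq_right (norm_nonneg _), Real.norm_of_nonneg hs] at hws1
        exact hws1
      rw [hw0, hs1]
      have : pr P.q (0 : Fin r → ℝ) = 0 := by
        unfold pr
        simp
      rw [this]
      norm_num

end Pool.Agent.H14.KV
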