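import Pool.Agent.H14.KV.Weight

/-!
# The main theorem with the intrinsic description of the degeneration
-/

set_option autoImplicit false

open scoped ENNReal

namespace Pool.Agent.H14.KV

open AddMonoidAlgebra (single)

variable {k : Type} [Field k] {r : ℕ} {D : PDiv k r}

theorem page_nonneg {z : Option k} {w : Fin r → ℝ} {s : ℝ}
    (h : ∀ x ∈ vmon D z, 0 ≤ pr x.1 w + s * (x.2 : ℝ)) (F : ring D) (hF : (F : KM k r) ≠ 0) :
    0 ≤ pageVal z w s (F : KM k r) :=
  le_pageVal z w s hF fun u hu => h (u, ordZ z _) ⟨_, hu, F.2 u, rfl⟩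

theorem nonTriv_page {z : Option k} {w : Fin r → ℝ} {s : ℝ} (hs : 0 ≤ s) (h : (w, s) ≠ 0) :
    NonTriv (page z w s hs) := by
  by_cases hs0 : s = 0
  · have hw : w ≠ 0 := fun hw => h (by rw [hw, hs0]; rfl)
    obtain ⟨i, hi⟩ := Function.ne_iff.1 hw
    refine ⟨single (Pi.single i 1) 1, single_ne one_ne_zero, ?_⟩
    rw [page_single z w s hs _ one_ne_zero, ordZ_one]
    have e : pr (Pi.single i 1) w = w i := by
      unfold pr
      simp [Pi.single_apply]
    rw [e]
    simpa using hi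
  · cases z with
    | none =>
      refine ⟨single 0 (lt 0), single_ne (lt_ne 0), ?_⟩
      rw [page_single none w s hs _ (lt_ne 0), ordZ_lt_none, pr_zero]
      simpa using hs0
    | some a =>
      refine ⟨single 0 (lt a), single_ne (lt_ne a), ?_⟩
      rw [page_single (some a) w s hs _ (lt_ne a), ordZ_lt_self, pr_zero]
      simpa using hs0

/-- moving to the spine along a direction with `s < 0` -/
theorem to_spine' {m : Ideal (ring D)} (hm : m.IsMaximal) {P : Pair k r}
    {a : ℕ → Ideal (ring D)} {z : Option k} {w : Fin r → ℝ} {s : ℝ} {hs : 0 ≤ s}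
    (hv : page z w s hs ∈ LCP P m a) {w₁ : Fin r → ℝ} {s₁ : ℝ} (hs₁ : s₁ < 0)
    (hdual : ∀ x ∈ vmon D z, 0 ≤ pr x.1 w₁ + s₁ * (x.2 : ℝ)) (hlin : lin P z w₁ s₁ ≤ 0) :
    page z (w + (s / -s₁) • w₁) 0 le_rfl ∈ LCP P m a := by
  set l := s / -s₁ with hl
  have hl0 : 0 ≤ l := div_nonneg hs (by linarith)
  have hls : l * s₁ = -s := by
    rw [hl, div_mul_eq_mul_div, div_eq_iff (by linarith)]
    ring
  set w' := w + l • w₁ with hw'
  have hpr : ∀ u : Fin r → ℤ, pr u w' = pr u w + l * pr u w₁ := by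
    intro u
    unfold pr
    rw [Finset.mul_sum, ← Finset.sum_add_distrib]
    refine Finset.sum_congr rfl fun i _ => ?_
    rw [hw', Pi.add_apply, Pi.smul_apply, smul_eq_mul]
    ring
  have hle : ∀ F : ring D, (F : KM k r) ≠ 0 →
      (page z w s hs).val F ≤ (page z w' 0 le_rfl).val F := by
    intro F hF
    refine le_pageVal z w' 0 hF fun u hu => ?_
    refine (pageVal_le z w s hu).trans ?_
    rw [hpr, zero_mul, add_zero]
    have h1 := mul_nonneg hl0 (hdual (u, ordZ z _) ⟨_, hu, F.2 u, rfl⟩)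
    simp only at h1
    have h2 : l * (pr u w₁ + s₁ * (ordZ z ((F : KM k r).coeff u) : ℝ)) =
        l * pr u w₁ + l * s₁ * (ordZ z ((F : KM k r).coeff u) : ℝ) := by ring
    rw [h2, hls] at h1
    linarith
  have hcen : Centered m (page z w' 0 le_rfl) :=
    centered_of hm (fun F hF => ((hv.1 F hF).1).trans (hle F hF)) fun F hF hFm =>
      lt_of_lt_of_le ((hv.1 F hF).2.2 hFm) (hle F hF)
  refine mem_LCP hcen ?_
  have hval : valG (page z w s hs) a ≤ valG (page z w' 0 le_rfl) a :=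
    valG_mono a fun i _ => iInf_mono fun F => iInf₂_mono fun _ hF0 =>
      ENNReal.ofReal_le_ofReal (hle F hF0)
  have hdisc : logDisc P (page z w' 0 le_rfl) ≤ logDisc P (page z w s hs) := by
    rw [disc_page, disc_page]
    refine ENNReal.ofReal_le_ofReal ?_
    have e : lin P z w' 0 = lin P z w s + l * lin P z w₁ s₁ := by
      have e1 : lin P z w' 0 = lin P z w' (s + l * s₁) := by rw [hls, add_neg_cancel]
      rw [e1]
      unfold lin
      rw [hpr]
      split_ifs <;> ring
    rw [e]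
    have := mul_nonpos_of_nonneg_of_nonpos hl0 hlin
    linarith
  exact (ENNReal.div_le_div hdisc hval).trans (le_of_eq hv.2)

/-- **Main theorem** -/
theorem main' [IsAlgClosed k] (D : PDiv k r) (P : Pair k r) (m : Ideal (ring D))
    (hm : m.IsMaximal) (hm0 : m ≠ ⊥) (hmT : Invt m) (heff : Effective D P) (hklt : Klt P m)
    (a : ℕ → Ideal (ring D)) (ha : GSeq m a) (hc : lct P m a ≠ ⊤) :
    ∃ (z : Option k) (w : Fin r → ℝ) (s : ℝ) (hs : 0 ≤ s), page z w s hs ∈ LCP P m a ∧
      logDisc P (page z w s hs) = ENNReal.ofReal (lin P z w s) ∧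
      (s = 0 ∨ (0 < s ∧ KltToric D P z)) := by
  classical
  obtain ⟨z, w, s, hs, hv⟩ := exists_page_LCP hm hmT hm0 hklt ha hc
  by_cases hs0 : s = 0
  · exact ⟨z, w, s, hs, hv, disc_page P z w s hs, Or.inl hs0⟩
  have hspos : 0 < s := lt_of_le_of_ne hs (Ne.symm hs0)
  by_cases hpos : ∀ (w : Fin r → ℝ) (s : ℝ), (w, s) ≠ 0 →
      (∀ x ∈ vmon D z, 0 ≤ pr x.1 w + s * (x.2 : ℝ)) → 0 < lin P z w s
  · have hsub : {z' | z' ≠ z ∧ ∃ p ∈ D.V z', mu p ≠ 1}.Subsingleton := by
      by_contra h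
      rw [Set.not_subsingleton_iff] at h
      obtain ⟨z₁, ⟨hz₁, p₁, hp₁, hm₁⟩, z₂, ⟨hz₂, p₂, hp₂, hm₂⟩, hne⟩ := h
      choose p₀ hp₀ using fun z' => D.nonempty z'
      set p : Option k → Fin r → ℚ := fun z' => if z' = z₁ then p₁ else if z' = z₂ then p₂ else
        p₀ z' with hp
      have e1 : p z₁ = p₁ := by rw [hp]; simp
      have e2 : p z₂ = p₂ := by rw [hp]; simp [hne.symm]
      have hpV : ∀ z', p z' ∈ D.V z' := by
        intro z'
        rw [hp]
        simp only
        split_ifs with h1 h2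
        · rw [h1]; exact hp₁
        · rw [h2]; exact hp₂
        · exact hp₀ z'
      have h1 := lin_nonpos heff z hpV hne hz₁ hz₂ (by rw [e1]; exact hm₁)
        (by rw [e2]; exact hm₂)
      have h2 := hpos (vsum D z p) (-1) (fun h => by
        have := (Prod.mk.injEq _ _ _ _).mp h
        norm_num at this) fun x hx => by
          obtain ⟨f, hf, hsec, hord⟩ := hx
          have h3 := ord_le z hpV hf hsec
          rw [hord] at h3
          linarith
      linarith
    exact ⟨z, w, s, hs, hv, disc_page P z w s hs, Or.inr ⟨hspos, vmon_fg hsub,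
      fun n x hn hx => vmon_sat hsub n hn x hx, hpos⟩⟩
  push Not at hpos
  obtain ⟨w₁, s₁, hne, hdual, hlin⟩ := hpos
  rcases lt_or_ge s₁ 0 with hs₁ | hs₁
  · exact ⟨z, _, 0, le_rfl, to_spine' hm hv hs₁ hdual hlin, disc_page P z _ 0 le_rfl,
      Or.inl rfl⟩
  · exfalso
    have h1 := hklt (page z w₁ s₁ hs₁) (nonTriv_page hs₁ hne)
      (through_of_nonneg hm hmT hs₁ (page_nonneg hdual))
    rw [disc_page, ENNReal.ofReal_pos] at h1
    linarith

end Pool.Agent.H14.KV
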