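import Pool.Agent.H14.KV.RingDef

/-!
# Klt germs with a torus action of complexity one: the definitions of the statement
-/

set_option autoImplicit false

open scoped ENNReal

namespace Pool.Agent.H14.KV.St

open AddMonoidAlgebra (single)

variable {k : Type} [Field k] {r : ℕ}

/-- the ring `R` of the polyhedral divisor `D`, `X = Spec R` -/
abbrev Rg (D : PDiv k r) : Type := ring D

/-- the ideals of `R` -/
abbrev Idl (D : PDiv k r) : Type := Ideal (Rg D)

/-- an element of `R` as an element of `k(t)[M]` -/
def el {D : PDiv k r} (F : Rg D) : KM k r := F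

/-- `F ∈ I` -/
def In {D : PDiv k r} (F : Rg D) (I : Idl D) : Prop := F ∈ I

/-- `F ≠ 0` -/
def Nz {D : PDiv k r} (F : Rg D) : Prop := el F ≠ 0

/-- the ideal is invariant under the torus: it contains the homogeneous components of its
elements -/
def Invt {D : PDiv k r} (I : Idl D) : Prop :=
  ∀ F, In F I → ∀ u, ∃ G, In G I ∧ el G = single u ((el F).coeff u)

/-- the ideal `m` is maximal and not zero (a closed point of `X`, `dim X > 0`) -/
def Pt {D : PDiv k r} (m : Idl D) : Prop := m.IsMaximal ∧ m ≠ ⊥

/-! ### real valuations and the pair -/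

/-- the valuation is the one of the page `z` with the parameters `w`, `s` -/
def IsPage (v : RVal k r) (z : Option k) (w : Fin r → ℝ) (s : ℝ) : Prop :=
  ∀ F : KM k r, F ≠ 0 → v.val F = pageVal z w s F

/-- the center of the valuation on `X` is the point of the maximal ideal `m` -/
def Centered {D : PDiv k r} (m : Idl D) (v : RVal k r) : Prop :=
  ∀ F : Rg D, Nz F → 0 ≤ v.val (el F) ∧ (0 < v.val (el F) ↔ In F m)

/-- the center of the valuation on `X` contains the point of the maximal ideal `m` -/
def Through {D : PDiv k r} (m : Idl D) (v : RVal k r) : Prop :=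
  ∀ F : Rg D, Nz F → 0 ≤ v.val (el F) ∧ (¬ In F m → v.val (el F) = 0)

/-- the valuation is not trivial -/
def NonTriv (v : RVal k r) : Prop := ∃ F : KM k r, F ≠ 0 ∧ v.val F ≠ 0

/-- the pair is klt at the point of `m` -/
def Klt {D : PDiv k r} (P : Pair k r) (m : Idl D) : Prop :=
  ∀ v : RVal k r, NonTriv v → Through m v → 0 < logDisc P v

/-- the coefficient `1 - A(v)` of the boundary is not negative at the prime divisor of each
vertex `p` of the polyhedron at each `z`; its valuation `v` is the one of the page `z` with the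
parameters `μ p`, `μ`, where `μ = mu p` is the least common denominator of `p` -/
def Effective (D : PDiv k r) (P : Pair k r) : Prop :=
  ∀ z, ∀ p ∈ D.V z, ∀ v : RVal k r,
    IsPage v z (fun i => (mu p : ℝ) * (p i : ℝ)) (mu p) → logDisc P v ≤ 1

/-! ### graded sequences and thresholds -/

/-- `I J ⊆ K` -/
def MulLe {D : PDiv k r} (I J K : Idl D) : Prop := I * J ≤ K

/-- the radical of `I` is `m` -/
def Rad {D : PDiv k r} (I m : Idl D) : Prop := I.radical = m

/-- a graded sequence of torus invariant `m`-primary ideals -/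
def GSeq {D : PDiv k r} (m : Idl D) (a : ℕ → Idl D) : Prop :=
  (∀ i j, 0 < i → 0 < j → MulLe (a i) (a j) (a (i + j))) ∧
    ∀ i, 0 < i → Rad (a i) m ∧ Invt (a i)

/-- the value of an ideal -/
noncomputable def valI {D : PDiv k r} (v : RVal k r) (I : Idl D) : ℝ≥0∞ :=
  ⨅ (F : Rg D) (_ : In F I) (_ : Nz F), ENNReal.ofReal (v.val (el F))

/-- the value of a graded sequence, `inf v(a_i) / i = lim v(a_i) / i` -/
noncomputable def valG {D : PDiv k r} (v : RVal k r) (a : ℕ → Idl D) : ℝ≥0∞ :=
  ⨅ (i : ℕ) (_ : 0 < i), valI v (a i) / i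

/-- the log canonical threshold of a graded sequence: the infimum of `A(v) / v(a_•)` over all
real valuations with center the point of `m` -/
noncomputable def lct {D : PDiv k r} (P : Pair k r) (m : Idl D) (a : ℕ → Idl D) : ℝ≥0∞ :=
  ⨅ (v : RVal k r) (_ : Centered m v), logDisc P v / valG v a

/-- the valuations which compute the log canonical threshold -/
def LCP {D : PDiv k r} (P : Pair k r) (m : Idl D) (a : ℕ → Idl D) : Set (RVal k r) :=
  {v | Centered m v ∧ logDisc P v / valG v a = lct P m a}

/-! ### the degeneration of a page -/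

/-- the value monoid of the page `z`: the pairs `(u, j)` for which some `f χ^u` in `R` has
`ord_z f = j` -/
def vset (D : PDiv k r) (z : Option k) : Set ((Fin r → ℤ) × ℤ) :=
  {x | ∃ f : RatFunc k, f ≠ 0 ∧ Sec D x.1 f ∧ ordZ z f = x.2}

/-- the degeneration of the page `z` is a klt toric variety: the value monoid is finitely
generated and saturated, and the linear form of the log discrepancy is positive on its dual
cone, the origin excepted -/
def KltToric (D : PDiv k r) (P : Pair k r) (z : Option k) : Prop :=
  (∃ T : Finset ((Fin r → ℤ) × ℤ),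
    (AddSubmonoid.closure (T : Set ((Fin r → ℤ) × ℤ)) : Set ((Fin r → ℤ) × ℤ)) = vset D z) ∧
  (∀ (n : ℕ) (x : (Fin r → ℤ) × ℤ), 0 < n → n • x ∈ vset D z → x ∈ vset D z) ∧
  ∀ (w : Fin r → ℝ) (s : ℝ), (w, s) ≠ 0 → (∀ x ∈ vset D z, 0 ≤ pr x.1 w + s * (x.2 : ℝ)) →
    0 < lin P z w s

end Pool.Agent.H14.KV.St
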