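import Pool.Agent.H14.KV.Fin
import Pool.Agent.H14.KV.Stmt

/-!
# The main theorem in the form of the statement
-/

set_option autoImplicit false

open scoped ENNReal

namespace Pool.Agent.H14.KV

open AddMonoidAlgebra (single)

variable {k : Type} [Field k] {r : ℕ}

theorem Dd_zero' (i : Fin (r + 1)) : Dd i (0 : KM k r) = 0 := by
  cases i using Fin.cases with
  | zero =>
    change ((0 : KM k r).coeff.sum fun u f => single u (dt f) : KM k r) = 0
    rw [AddMonoidAlgebra.coeff_zero, Finsupp.sum_zero_index]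
  | succ j =>
    change ((0 : KM k r).coeff.sum fun u f => single u ((u j : RatFunc k) * f) : KM k r) = 0
    rw [AddMonoidAlgebra.coeff_zero, Finsupp.sum_zero_index]

theorem ne_of_Jac {y : Fin (r + 1) → KM k r} (h : Jac y ≠ 0) (j : Fin (r + 1)) : y j ≠ 0 := by
  intro hj
  apply h
  refine Matrix.det_eq_zero_of_column_eq_zero j fun i => ?_
  rw [Matrix.of_apply, hj, Dd_zero']

theorem logDisc_congr (P : Pair k r) {v v' : RVal k r}
    (h : ∀ F : KM k r, F ≠ 0 → v.val F = v'.val F) : logDisc P v = logDisc P v' := by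
  unfold logDisc
  refine iSup_congr fun y => iSup_congr fun hy => ?_
  rw [h _ hy, h _ (single_ne P.ne), Finset.sum_congr rfl fun j _ => h _ (ne_of_Jac hy j)]

/-- **Main theorem** -/
theorem main_st [IsAlgClosed k] (D : PDiv k r) (P : Pair k r) (m : St.Idl D) (hm : St.Pt m)
    (hmT : St.Invt m) (heff : St.Effective D P) (hklt : St.Klt P m) (a : ℕ → St.Idl D)
    (ha : St.GSeq m a) (hc : St.lct P m a ≠ ⊤) :
    ∃ v ∈ St.LCP P m a, ∃ (z : Option k) (w : Fin r → ℝ) (s : ℝ), 0 ≤ s ∧ St.IsPage v z w s ∧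
      (s = 0 ∨ (0 < s ∧ St.KltToric D P z)) ∧
      ∀ (w' : Fin r → ℝ) (s' : ℝ) (v' : RVal k r), 0 ≤ s' → St.IsPage v' z w' s' →
        logDisc P v' = ENNReal.ofReal (lin P z w' s') := by
  have ha' : GSeq m a := ⟨fun i j hi hj => ha.1 i j hi hj, fun i hi => (ha.2 i hi).1,
    fun i hi => (ha.2 i hi).2⟩
  have heff' : Effective D P := fun z p hp => heff z p hp _ fun F _ => rfl
  obtain ⟨z, w, s, hs, hv, -, h⟩ := main' D P m hm.1 hm.2 hmT heff' hklt a ha' hc
  refine ⟨page z w s hs, hv, z, w, s, hs, fun F _ => rfl, ?_, fun w' s' v' hs' hv' => ?_⟩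
  · rcases h with h | ⟨h, ⟨T, hT⟩, hsat, hpos⟩
    · exact Or.inl h
    · exact Or.inr ⟨h, ⟨T, congrArg SetLike.coe hT⟩, hsat, hpos⟩
  · rw [← disc_page P z w' s' hs']
    exact logDisc_congr P hv'

end Pool.Agent.H14.KV
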