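import Pool.Agent.H14.KV.Mon

/-!
# The value monoid of a page is finitely generated and saturated
-/

set_option autoImplicit false

open scoped ENNReal Pointwise

namespace Pool.Agent.H14.KV

open AddMonoidAlgebra (single)

/-- Gordan's lemma -/
theorem gordan {G : Type} [AddCommGroup G] [hG : AddMonoid.FG G] {ι : Type} [Finite ι]
    (L : ι → G →+ ℤ) (S : AddSubmonoid G) (hS : ∀ x, x ∈ S ↔ ∀ i, 0 ≤ L i x) : S.FG := by
  classical
  obtain ⟨T, hT⟩ := hG.fg_top
  let Φ : (T ⊕ ι → ℕ) →+ G :=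
    { toFun := fun a => ∑ t : T, a (Sum.inl t) • (t : G)
      map_zero' := by simp
      map_add' := fun a b => by
        rw [← Finset.sum_add_distrib]
        exact Finset.sum_congr rfl fun t _ => add_smul _ _ _ }
  have hΦ : ∀ a, Φ a = ∑ t : T, a (Sum.inl t) • (t : G) := fun _ => rfl
  let f : (T ⊕ ι → ℕ) →+ (ι → ℤ) :=
    { toFun := fun a i => L i (Φ a)
      map_zero' := by
        funext i
        rw [map_zero, map_zero]
        rfl
      map_add' := fun a b => by
        funext i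
        rw [map_add, map_add]
        rfl }
  let g : (T ⊕ ι → ℕ) →+ (ι → ℤ) :=
    { toFun := fun a i => (a (Sum.inr i) : ℤ)
      map_zero' := by
        funext i
        rfl
      map_add' := fun a b => by
        funext i
        simp }
  have e : S = (f.eqLocusM g).map Φ := by
    ext x
    rw [AddSubmonoid.mem_map]
    constructor
    · intro hx
      have hx' : x ∈ AddSubmonoid.closure (T : Set G) := by rw [hT]; trivial
      obtain ⟨b, -, hb⟩ := AddSubmonoid.mem_closure_finset.1 hx'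
      have h1 : Φ (Sum.elim (fun t : T => b t) fun i => (L i x).toNat) = x := by
        rw [hΦ, ← hb]
        simp only [Sum.elim_inl]
        exact Finset.sum_coe_sort T fun t => b t • t
      refine ⟨_, ?_, h1⟩
      rw [AddMonoidHom.mem_eqLocusM]
      funext i
      change L i (Φ _) = (((L i x).toNat : ℕ) : ℤ)
      rw [h1]
      exact (Int.toNat_of_nonneg ((hS x).1 hx i)).symm
    · rintro ⟨a, ha, rfl⟩
      rw [AddMonoidHom.mem_eqLocusM] at ha
      refine (hS _).2 fun i => ?_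
      have h1 : L i (Φ a) = (a (Sum.inr i) : ℤ) := congrFun ha i
      rw [h1]
      exact Int.natCast_nonneg _
  rw [e]
  exact (AddSubmonoid.fg_eqLocusM f g).map Φ

variable {k : Type} [Field k] {r : ℕ}

theorem mu_num (q : Fin r → ℚ) (i : Fin r) : (((mu q : ℚ) * q i).num : ℚ) = mu q * q i := by
  have h1 : (q i).den ∣ mu q := Finset.dvd_lcm (Finset.mem_univ i)
  obtain ⟨c, hc⟩ := h1
  have h2 : (mu q : ℚ) * q i = ((c * (q i).num : ℤ) : ℚ) := by
    rw [hc]
    push_cast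
    have h3 : (q i) * (q i).den = (q i).num := Rat.mul_den_eq_num (q i)
    calc ((q i).den : ℚ) * c * q i = c * (q i * (q i).den) := by ring
      _ = c * (q i).num := by rw [h3]
  rw [h2, Rat.num_intCast]

/-- an integral multiple of `(u, j) ↦ c j + ⟨u, q⟩` -/
def rform (x : (Fin r → ℚ) × ℤ) : ((Fin r → ℤ) × ℤ) →+ ℤ where
  toFun y := (mu x.1 : ℤ) * x.2 * y.2 + ∑ i, y.1 i * ((mu x.1 : ℚ) * x.1 i).num
  map_zero' := by simp
  map_add' y z := by
    have h : ∑ i, (y + z).1 i * ((mu x.1 : ℚ) * x.1 i).num =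
        ∑ i, y.1 i * ((mu x.1 : ℚ) * x.1 i).num + ∑ i, z.1 i * ((mu x.1 : ℚ) * x.1 i).num := by
      rw [← Finset.sum_add_distrib]
      exact Finset.sum_congr rfl fun i _ => by rw [Prod.fst_add, Pi.add_apply]; ring
    rw [h, Prod.snd_add]
    ring

theorem rform_nonneg (x : (Fin r → ℚ) × ℤ) (y : (Fin r → ℤ) × ℤ) :
    0 ≤ rform x y ↔ 0 ≤ ((x.2 * y.2 : ℤ) : ℚ) + prq y.1 x.1 := by
  have h : ((rform x y : ℤ) : ℚ) = mu x.1 * (((x.2 * y.2 : ℤ) : ℚ) + prq y.1 x.1) := by
    change (((mu x.1 : ℤ) * x.2 * y.2 + ∑ i, y.1 i * ((mu x.1 : ℚ) * x.1 i).num : ℤ) : ℚ) = _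
    rw [mul_add, prq, Finset.mul_sum]
    push_cast
    congr 1
    · ring
    · refine Finset.sum_congr rfl fun i _ => ?_
      rw [mu_num]
      ring
  have h0 : (0 : ℚ) < mu x.1 := by exact_mod_cast mu_pos x.1
  have h1 : 0 ≤ rform x y ↔ (0 : ℚ) ≤ ((rform x y : ℤ) : ℚ) := by
    exact_mod_cast Iff.rfl
  rw [h1, h, mul_nonneg_iff_of_pos_left h0]

/-- the inequalities which define the cone of the page -/
def forms (D : PDiv k r) (z : Option k) : Set ((Fin r → ℚ) × ℤ) :=
  {x | (∃ ρ ∈ D.rays, x = (fun i => (ρ i : ℚ), 0)) ∨ (∃ p ∈ D.V z, x = (p, 1)) ∨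
    ∃ p : Option k → Fin r → ℚ, (∀ z', p z' ∈ D.V z') ∧
      x = (fun i => by classical exact ∑ z' ∈ D.fin.toFinset.erase z, p z' i, -1)}

theorem forms_finite (D : PDiv k r) (z : Option k) : (forms D z).Finite := by
  classical
  refine (Finset.finite_toSet ((D.rays.image fun ρ =>
      ((fun i => (ρ i : ℚ), 0) : (Fin r → ℚ) × ℤ)) ∪
      ((D.V z).image fun p => ((p, 1) : (Fin r → ℚ) × ℤ)) ∪
      ((∑ z' ∈ D.fin.toFinset.erase z, D.V z').image fun q =>
        ((q, -1) : (Fin r → ℚ) × ℤ)))).subset ?_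
  rintro x (⟨ρ, hρ, rfl⟩ | ⟨p, hp, rfl⟩ | ⟨p, hp, rfl⟩)
  · rw [Finset.mem_coe, Finset.mem_union, Finset.mem_union]
    exact Or.inl (Or.inl (Finset.mem_image_of_mem _ hρ))
  · rw [Finset.mem_coe, Finset.mem_union, Finset.mem_union]
    exact Or.inl (Or.inr (Finset.mem_image_of_mem _ hp))
  · rw [Finset.mem_coe, Finset.mem_union, Finset.mem_image]
    refine Or.inr ⟨∑ z' ∈ D.fin.toFinset.erase z, p z', ?_, ?_⟩
    · rw [← Finset.mem_coe, Finset.coe_sum]
      exact Set.finsetSum_mem_finsetSum _ _ _ fun z' _ => hp z'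
    · congr 1
      funext i
      rw [Finset.sum_apply]

theorem inCone_iff (D : PDiv k r) (z : Option k) (x : (Fin r → ℤ) × ℤ) :
    InCone D z x.1 x.2 ↔ ∀ y : forms D z, 0 ≤ rform y.1 x := by
  classical
  have hA : ∀ p : Option k → Fin r → ℚ, ((x.2 : ℝ) ≤ pr x.1 (vsum D z p) ↔
      0 ≤ rform ((fun i => by classical exact ∑ z' ∈ D.fin.toFinset.erase z, p z' i, -1) :
        (Fin r → ℚ) × ℤ) x) := by
    intro p
    rw [rform_nonneg]
    have e : pr x.1 (vsum D z p) = ((prq x.1 (fun i => by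
        classical exact ∑ z' ∈ D.fin.toFinset.erase z, p z' i) : ℚ) : ℝ) := by
      unfold pr vsum prq
      push_cast
      refine Finset.sum_congr rfl fun i _ => ?_
      congr 1
    rw [e]
    simp only
    generalize prq x.1 _ = t
    have e2 : ((x.2 : ℝ) ≤ ((t : ℚ) : ℝ)) ↔ ((x.2 : ℚ) ≤ t) := by
      exact_mod_cast Iff.rfl
    rw [e2]
    push_cast
    constructor <;> intro h <;> linarith
  constructor
  · rintro ⟨h1, h2, h3⟩ ⟨y, ⟨ρ, hρ, rfl⟩ | ⟨p, hp, rfl⟩ | ⟨p, hp, rfl⟩⟩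
    · rw [rform_nonneg]
      have := h1 ρ hρ
      unfold prq
      simp only [zero_mul, Int.cast_zero, zero_add]
      exact_mod_cast this
    · rw [rform_nonneg]
      simpa using h2 p hp
    · exact (hA p).1 (h3 p hp)
  · intro h
    refine ⟨fun ρ hρ => ?_, fun p hp => ?_, fun p hp => ?_⟩
    · have := h ⟨_, Or.inl ⟨ρ, hρ, rfl⟩⟩
      rw [rform_nonneg] at this
      unfold prq at this
      simp only [zero_mul, Int.cast_zero, zero_add] at this
      exact_mod_cast this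
    · have := h ⟨_, Or.inr (Or.inl ⟨p, hp, rfl⟩)⟩
      rw [rform_nonneg] at this
      simpa using this
    · exact (hA p).2 (h ⟨_, Or.inr (Or.inr ⟨p, hp, rfl⟩)⟩)

theorem vmon_fg [IsAlgClosed k] {D : PDiv k r} {z : Option k}
    (hsub : {z' | z' ≠ z ∧ ∃ p ∈ D.V z', mu p ≠ 1}.Subsingleton) : (vmon D z).FG := by
  have : Finite (forms D z) := (forms_finite D z).to_subtype
  refine gordan (fun y : forms D z => rform y.1) _ fun x => ?_
  rw [← inCone_iff]
  exact ⟨fun h => inCone_of_mem h, fun h => mem_of_inCone hsub h⟩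

theorem vmon_sat [IsAlgClosed k] {D : PDiv k r} {z : Option k}
    (hsub : {z' | z' ≠ z ∧ ∃ p ∈ D.V z', mu p ≠ 1}.Subsingleton) (n : ℕ) (hn : 0 < n)
    (x : (Fin r → ℤ) × ℤ) (hx : n • x ∈ vmon D z) : x ∈ vmon D z := by
  have h1 := (inCone_iff D z (n • x)).1 (inCone_of_mem hx)
  refine mem_of_inCone hsub ((inCone_iff D z x).2 fun y => ?_)
  have h2 := h1 y
  rw [map_nsmul, nsmul_eq_mul] at h2
  have h3 : (0 : ℤ) < n := by exact_mod_cast hn
  exact nonneg_of_mul_nonneg_right h2 h3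

end Pool.Agent.H14.KV
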