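import Pool.Agent.H61.KV.TG
import Pool.Agent.H25.Star.HullCompact

/-!
# Separation of a face from a compact set
-/

set_option autoImplicit false

open Set

namespace Pool.Agent.H14.KV.HSP

open Pool.Agent.H61.KV

theorem conv {V : Type} [NormedAddCommGroup V] [NormedSpace ℝ V] {C : Set V} (h : IsCC C) :
    Convex ℝ C := by
  intro x hx y hy a b ha hb _
  exact h.add _ (h.smul a ha x hx) _ (h.smul b hb y hy)

theorem pf_HSP (h : T_FCB) : T_HSP := by
  intro V _ _ _ C p A hC hp hA hAC hAF
  obtain ⟨-, hF, hface, -⟩ := h V C p hC hp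
  obtain ⟨e, he⟩ := hC.pos
  have hecont : Continuous e := e.continuous_of_finiteDimensional
  have hA0 : ∀ a ∈ A, 0 < e a := by
    intro a ha
    refine he a (hAC ha) ?_
    rintro rfl
    exact hAF 0 ha hF.zero
  set B : Set V := (fun a => (e a)⁻¹ • a) '' A with hB
  have hBc : IsCompact B := by
    apply hA.image_of_continuousOn
    apply ContinuousOn.smul
    · exact ContinuousOn.inv₀ hecont.continuousOn fun a ha => (hA0 a ha).ne'
    · exact continuousOn_id
  have hnF : Convex ℝ (C \ Fc C p) := by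
    intro x hx y hy a b ha hb hab
    refine ⟨hC.add _ (hC.smul a ha x hx.1) _ (hC.smul b hb y hy.1), ?_⟩
    intro hmem
    obtain ⟨m1, m2⟩ := hface _ (hC.smul a ha x hx.1) _ (hC.smul b hb y hy.1) hmem
    rcases ha.eq_or_lt with h0 | h0
    · have hb1 : b = 1 := by rw [← h0] at hab; linarith
      rw [hb1, one_smul] at m2
      exact hy.2 m2
    · apply hx.2
      have := hF.smul a⁻¹ (by positivity) _ m1
      rwa [smul_smul, inv_mul_cancel₀ h0.ne', one_smul] at this
  have hBn : B ⊆ C \ Fc C p := by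
    rintro _ ⟨a, ha, rfl⟩
    have hpos := hA0 a ha
    refine ⟨hC.smul _ (by positivity) a (hAC ha), ?_⟩
    intro hmem
    apply hAF a ha
    have := hF.smul (e a) hpos.le _ hmem
    simp only at this
    rwa [smul_smul, mul_inv_cancel₀ hpos.ne', one_smul] at this
  have hK : convexHull ℝ B ⊆ C \ Fc C p := convexHull_min hBn hnF
  have hT : Convex ℝ (Fc C p ∩ {v | e v = 1}) := by
    apply (conv hF).inter
    intro x hx y hy a b _ _ hab
    simp only [mem_ofPred_eq] at hx hy ⊢
    rw [map_add, map_smul, map_smul, hx, hy]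
    simpa using hab
  have hTc : IsClosed (Fc C p ∩ {v | e v = 1}) :=
    hF.closed.inter (isClosed_eq hecont continuous_const)
  have hdisj : Disjoint (convexHull ℝ B) (Fc C p ∩ {v | e v = 1}) := by
    rw [Set.disjoint_left]
    intro x hx hx'
    exact (hK hx).2 hx'.1
  obtain ⟨f, u, v, f1, f2, f3⟩ := geometric_hahn_banach_compact_closed
    (convex_convexHull ℝ B) (Pool.Agent.H25.Star.isCompact_convexHull hBc) hT hTc hdisj
  refine ⟨u • e - (f : V →ₗ[ℝ] ℝ), ?_, ?_⟩
  · intro q hq hq0
    have hpos := he q hq.1 hq0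
    have h1 := f3 ((e q)⁻¹ • q) ⟨hF.smul _ (by positivity) q hq, by
      simp only [mem_ofPred_eq, map_smul, smul_eq_mul]
      exact inv_mul_cancel₀ hpos.ne'⟩
    rw [map_smul, smul_eq_mul] at h1
    have h2 : u < (e q)⁻¹ * f q := f2.trans h1
    rw [inv_mul_eq_div, lt_div_iff₀ hpos] at h2
    simp only [LinearMap.sub_apply, LinearMap.smul_apply, smul_eq_mul,
      ContinuousLinearMap.coe_coe]
    linarith
  · intro a ha
    have hpos := hA0 a ha
    have h1 := f1 ((e a)⁻¹ • a) (subset_convexHull ℝ B ⟨a, ha, rfl⟩)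
    rw [map_smul, smul_eq_mul, inv_mul_eq_div, div_lt_iff₀ hpos] at h1
    simp only [LinearMap.sub_apply, LinearMap.smul_apply, smul_eq_mul,
      ContinuousLinearMap.coe_coe]
    linarith

end Pool.Agent.H14.KV.HSP
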