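import Pool.Agent.H14.KV.Ring

/-!
# Computing valuations: reduction to invariant valuations, existence, moving to the spine
-/

set_option autoImplicit false

open scoped ENNReal
open Filter Topology

namespace Pool.Agent.H14.KV

open AddMonoidAlgebra (single)

variable {k : Type} [Field k] {r : ℕ} {D : PDiv k r}

/-! ### general facts -/

theorem val_neg_one (v : RVal k r) : v.val (-1) = 0 := by
  have e : (-1 : KM k r) = single 0 (RatFunc.C (-1)) := by
    rw [map_neg, map_one, AddMonoidAlgebra.single_neg]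
    rfl
  rw [e]
  exact v.triv (-1) (by simp)

/-- a valuation which is not negative on the ring and positive on `m` is centered at `m` -/
theorem centered_of {m : Ideal (ring D)} (hm : m.IsMaximal) {v : RVal k r}
    (h0 : ∀ F : ring D, (F : KM k r) ≠ 0 → 0 ≤ v.val F)
    (h1 : ∀ F : ring D, (F : KM k r) ≠ 0 → F ∈ m → 0 < v.val F) : Centered m v := by
  intro F hF
  refine ⟨h0 F hF, ⟨fun hpos => ?_, h1 F hF⟩⟩
  by_contra hFm
  obtain ⟨G, M, hM, hGM⟩ := Ideal.IsMaximal.exists_inv hm hFm
  have hG : (G : KM k r) ≠ 0 := by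
    intro hG
    apply hm.ne_top
    rw [Ideal.eq_top_iff_one]
    have e : G = 0 := Subtype.ext hG
    rw [e, zero_mul, zero_add] at hGM
    rwa [hGM] at hM
  have e1 : (G : KM k r) * F + M = 1 := by
    have := congrArg (fun x : ring D => (x : KM k r)) hGM
    simpa using this
  have hGF : (G : KM k r) * F ≠ 0 := mul_ne_zero hG hF
  have h2 : 0 < v.val ((G : KM k r) * F) := by
    rw [v.mul _ _ hG hF]
    linarith [h0 G hG]
  by_cases hM0 : (M : KM k r) = 0
  · rw [hM0, add_zero] at e1
    rw [e1, v.val_one] at h2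
    exact lt_irrefl _ h2
  · have h3 := v.add _ _ hGF hM0 (by rw [e1]; exact one_ne_zero)
    rw [e1, v.val_one] at h3
    rcases min_le_iff.1 h3 with h4 | h4
    · linarith
    · linarith [h1 M hM0 hM]

/-- an element of the ring whose homogeneous components are in `I` is in `I` -/
theorem mem_of_comp {I : Ideal (ring D)} {F : ring D}
    (h : ∀ u, (F : KM k r).coeff u ≠ 0 → ∃ G ∈ I, (G : KM k r) = single u ((F : KM k r).coeff u)) :
    F ∈ I := by
  classical
  have e : F = ∑ u ∈ (F : KM k r).coeff.support,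
      (⟨single u ((F : KM k r).coeff u), single_mem F.2 u⟩ : ring D) := by
    apply Subtype.ext
    rw [AddSubmonoidClass.coe_finsetSum]
    simp only
    ext a
    have h1 : ∀ T : Finset (Fin r → ℤ),
        (∑ u ∈ T, (single u ((F : KM k r).coeff u) : KM k r)).coeff a =
        ∑ u ∈ T, (single u ((F : KM k r).coeff u) : KM k r).coeff a := by
      intro T
      induction T using Finset.induction_on with
      | empty => simp
      | insert b T hb ih => rw [Finset.sum_insert hb, Finset.sum_insert hb, ← ih]; simp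
    rw [h1]
    by_cases ha : (F : KM k r).coeff a = 0
    · rw [ha]
      symm
      refine Finset.sum_eq_zero fun u _ => ?_
      rw [AddMonoidAlgebra.coeff_single, Finsupp.single_apply]
      split_ifs with hu
      · rw [hu, ha]
      · rfl
    · rw [Finset.sum_eq_single a]
      · rw [coeff_single_self]
      · intro u _ hu
        rw [AddMonoidAlgebra.coeff_single, Finsupp.single_apply, if_neg hu]
      · intro hu
        exact absurd (Finsupp.notMem_support_iff.1 hu) ha
  rw [e]
  refine Ideal.sum_mem _ fun u hu => ?_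
  obtain ⟨G, hG, hGe⟩ := h u (Finsupp.mem_support_iff.1 hu)
  have : (⟨single u ((F : KM k r).coeff u), single_mem F.2 u⟩ : ring D) = G :=
    Subtype.ext hGe.symm
  rw [this]
  exact hG

theorem valG_mono {v v' : RVal k r} (a : ℕ → Ideal (ring D))
    (h : ∀ i, 0 < i → valI v (a i) ≤ valI v' (a i)) : valG v a ≤ valG v' a :=
  iInf₂_mono fun i hi => ENNReal.div_le_div_right (h i hi) _

theorem le_valG {v : RVal k r} (a : ℕ → Ideal (ring D)) {B : ℝ}
    (h : ∀ i, 0 < i → ∀ F ∈ a i, (F : KM k r) ≠ 0 → B * i ≤ v.val F) :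
    ENNReal.ofReal B ≤ valG v a := by
  refine le_iInf₂ fun i hi => ?_
  have hi' : (0 : ℝ) < i := by exact_mod_cast hi
  rw [ENNReal.le_div_iff_mul_le (Or.inl (by exact_mod_cast hi.ne')) (Or.inl (by simp))]
  refine le_iInf fun F => le_iInf₂ fun hF hF0 => ?_
  have e : (i : ℝ≥0∞) = ENNReal.ofReal (i : ℝ) := by simp
  rw [e, ← ENNReal.ofReal_mul' hi'.le]
  exact ENNReal.ofReal_le_ofReal (h i hi F hF hF0)

theorem valG_le {v : RVal k r} (a : ℕ → Ideal (ring D)) {i : ℕ} (hi : 0 < i) {F : ring D}
    (hF : F ∈ a i) (hF0 : (F : KM k r) ≠ 0) : valG v a ≤ ENNReal.ofReal (v.val F / i) := by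
  have hi' : (0 : ℝ) < i := by exact_mod_cast hi
  refine (iInf₂_le i hi).trans ?_
  rw [ENNReal.ofReal_div_of_pos hi']
  have e : (i : ℝ≥0∞) = ENNReal.ofReal (i : ℝ) := by simp
  rw [← e]
  refine ENNReal.div_le_div_right ?_ _
  exact (iInf_le _ F).trans (iInf₂_le hF hF0)

/-- there is a nonzero element in every member of the sequence -/
theorem exists_ne {m : Ideal (ring D)} (hm0 : m ≠ ⊥) {a : ℕ → Ideal (ring D)}
    (ha : GSeq m a) {i : ℕ} (hi : 0 < i) : ∃ F ∈ a i, (F : KM k r) ≠ 0 := by
  by_contra h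
  push Not at h
  apply hm0
  have h1 : a i = ⊥ := by
    rw [eq_bot_iff]
    intro F hF
    exact Subtype.ext (h F hF)
  rw [← ha.rad i hi, h1]
  exact Ideal.radical_bot_of_isReduced

/-! ### the invariant valuation -/

theorem lin_smul (P : Pair k r) (z : Option k) (c : ℝ) (w : Fin r → ℝ) (s : ℝ) :
    lin P z (fun i => c * w i) (c * s) = c * lin P z w s := by
  have h : pr P.q (fun i => c * w i) = c * pr P.q w := by
    unfold pr
    rw [Finset.mul_sum]
    exact Finset.sum_congr rfl fun i _ => by ring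
  unfold lin
  rw [h]
  split_ifs <;> ring

/-- replacing a valuation by the invariant one -/
theorem invariant {m : Ideal (ring D)} (hm : m.IsMaximal) (hmT : Invt m) (P : Pair k r)
    {a : ℕ → Ideal (ring D)} (ha : GSeq m a) {v : RVal k r} (hv : Centered m v) {z : Option k}
    {s : ℝ} (hs : 0 ≤ s)
    (h : ∀ (u : Fin r → ℤ) (f : RatFunc k), f ≠ 0 →
      v.val (single u f) = pr u v.wt + s * ordZ z f) :
    Centered m (page z v.wt s hs) ∧ logDisc P (page z v.wt s hs) ≤ logDisc P v ∧
      valG v a ≤ valG (page z v.wt s hs) a := by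
  have hval : ∀ F : KM k r, F ≠ 0 → ∃ u, F.coeff u ≠ 0 ∧
      (page z v.wt s hs).val F = v.val (single u (F.coeff u)) := by
    intro F hF
    obtain ⟨u, hu, e⟩ := pageVal_mem z v.wt s hF
    exact ⟨u, hu, by rw [h u _ hu]; exact e⟩
  refine ⟨centered_of hm (fun F hF => ?_) fun F hF hFm => ?_, ?_, ?_⟩
  · obtain ⟨u, hu, e⟩ := hval F hF
    rw [e]
    exact (hv ⟨_, single_mem F.2 u⟩ (single_ne hu)).1
  · obtain ⟨u, hu, e⟩ := hval F hF
    obtain ⟨G, hG, hGe⟩ := hmT F hFm u
    rw [e, ← hGe]
    refine (hv G ?_).2.2 hG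
    rw [hGe]
    exact single_ne hu
  · rw [disc_page]
    exact le_disc P v z s h
  · refine valG_mono a fun i hi => ?_
    refine le_iInf fun F => le_iInf₂ fun hF hF0 => ?_
    obtain ⟨u, hu, e⟩ := hval F hF0
    obtain ⟨G, hG, hGe⟩ := ha.inv i hi F hF u
    rw [e, ← hGe]
    refine (iInf_le _ G).trans (iInf₂_le hG ?_)
    rw [hGe]
    exact single_ne hu

/-- the criterion for a page to compute the threshold -/
theorem mem_LCP {m : Ideal (ring D)} {P : Pair k r} {a : ℕ → Ideal (ring D)} {v : RVal k r}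
    (hv : Centered m v) (h : logDisc P v / valG v a ≤ lct P m a) : v ∈ LCP P m a :=
  ⟨hv, le_antisymm h (iInf₂_le v hv)⟩

/-- the limit argument -/
theorem limit {m : Ideal (ring D)} (hm : m.IsMaximal) (hm0 : m ≠ ⊥) {P : Pair k r}
    (hklt : Klt P m) {a : ℕ → Ideal (ring D)} (ha : GSeq m a) (hc : lct P m a ≠ ⊤)
    (Z : ℕ → Option k) (W : ℕ → Fin r → ℝ) (S : ℕ → ℝ) (hS : ∀ n, 0 ≤ S n)
    (hcen : ∀ n, Centered m (page (Z n) (W n) (S n) (hS n)))
    (hlin : ∀ n, ∀ i, 0 < i → ∀ F ∈ a i, (F : KM k r) ≠ 0 → lin P (Z n) (W n) (S n) * i ≤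
      ((lct P m a).toReal + 1 / ((n : ℝ) + 1)) * pageVal (Z n) (W n) (S n) (F : KM k r))
    (z : Option k) (w : Fin r → ℝ) (s : ℝ) (hs : 0 ≤ s) (Λ : ℝ) (φ : ℕ → ℕ)
    (hφ : Tendsto φ atTop atTop)
    (hlim : ∀ (u : Fin r → ℤ) (f : RatFunc k), f ≠ 0 →
      Tendsto (fun n => pr u (W (φ n)) + S (φ n) * ordZ (Z (φ n)) f) atTop
        (𝓝 (pr u w + s * ordZ z f)))
    (hΛ : Tendsto (fun n => lin P (Z (φ n)) (W (φ n)) (S (φ n))) atTop (𝓝 Λ))
    (hle : lin P z w s ≤ Λ) (hpos : w = 0 → s = 0 → 0 < Λ) :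
    page z w s hs ∈ LCP P m a := by
  set c := (lct P m a).toReal with hcdef
  have hc0 : 0 ≤ c := ENNReal.toReal_nonneg
  have hlc : lct P m a = ENNReal.ofReal c := (ENNReal.ofReal_toReal hc).symm
  -- values on homogeneous elements
  have hnn : ∀ (G : ring D) (u : Fin r → ℤ) (f : RatFunc k), f ≠ 0 →
      (G : KM k r) = single u f → 0 ≤ pr u w + s * ordZ z f := by
    intro G u f hf hG
    refine ge_of_tendsto' (hlim u f hf) fun n => ?_
    have h1 := (hcen (φ n) G (by rw [hG]; exact single_ne hf)).1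
    rw [hG, page_single _ _ _ _ u hf] at h1
    exact h1
  have h0 : ∀ F : ring D, (F : KM k r) ≠ 0 → 0 ≤ (page z w s hs).val F := by
    intro F hF
    refine le_pageVal z w s hF fun u hu => ?_
    exact hnn ⟨_, single_mem F.2 u⟩ u _ hu rfl
  -- the valuation is through the point
  have hthr : Through m (page z w s hs) := by
    intro F hF
    refine ⟨h0 F hF, fun hFm => le_antisymm ?_ (h0 F hF)⟩
    by_contra hcon
    push Not at hcon
    apply hFm
    refine mem_of_comp fun u hu => ⟨⟨_, single_mem F.2 u⟩, ?_, rfl⟩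
    by_contra hnot
    have h1 : ∀ n, pr u (W n) + S n * ordZ (Z n) ((F : KM k r).coeff u) = 0 := by
      intro n
      have h2 := hcen n ⟨_, single_mem F.2 u⟩ (single_ne hu)
      have h3 : ¬ 0 < (page (Z n) (W n) (S n) (hS n)).val (single u ((F : KM k r).coeff u)) :=
        fun h => hnot (h2.2.1 h)
      rw [← page_single (Z n) (W n) (S n) (hS n) u hu]
      exact le_antisymm (not_lt.1 h3) h2.1
    have h2 := hlim u _ hu
    simp only [h1] at h2
    have h3 := tendsto_nhds_unique h2 tendsto_const_nhds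
    have h4 : pageVal z w s (F : KM k r) ≤ 0 := (pageVal_le z w s hu).trans (le_of_eq h3)
    exact absurd hcon (not_lt.2 h4)
  -- `Λ` is positive
  have hΛ0 : 0 < Λ := by
    by_cases hw : w = 0 ∧ s = 0
    · exact hpos hw.1 hw.2
    have hnt : NonTriv (page z w s hs) := by
      by_cases hw0 : w = 0
      · have hs0 : s ≠ 0 := fun h => hw ⟨hw0, h⟩
        cases z with
        | none =>
          refine ⟨single 0 (lt 0), single_ne (lt_ne 0), ?_⟩
          rw [page_single _ _ _ _ _ (lt_ne 0), pr_zero, ordZ_lt_none]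
          push_cast
          intro h
          apply hs0
          linarith
        | some b =>
          refine ⟨single 0 (lt b), single_ne (lt_ne b), ?_⟩
          rw [page_single _ _ _ _ _ (lt_ne b), pr_zero, ordZ_lt_self]
          push_cast
          intro h
          apply hs0
          linarith
      · obtain ⟨i, hi⟩ := Function.ne_iff.1 hw0
        refine ⟨single (Pi.single i 1) 1, single_ne one_ne_zero, ?_⟩
        have h1 := congrFun (page_wt z w s hs) i
        unfold RVal.wt at h1
        rw [h1]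
        exact hi
    have h1 := hklt _ hnt hthr
    rw [disc_page, ENNReal.ofReal_pos] at h1
    exact lt_of_lt_of_le h1 hle
  -- the key inequality
  have hkey : ∀ i, 0 < i → ∀ F ∈ a i, (F : KM k r) ≠ 0 →
      Λ * i ≤ c * pageVal z w s (F : KM k r) := by
    intro i hi F hF hF0
    obtain ⟨u, hu, e⟩ := pageVal_mem z w s hF0
    obtain ⟨G, hG, hGe⟩ := ha.inv i hi F hF u
    have hG0 : (G : KM k r) ≠ 0 := by
      rw [hGe]
      exact single_ne hu
    have h1 : Tendsto (fun n => lin P (Z (φ n)) (W (φ n)) (S (φ n)) * i) atTop (𝓝 (Λ * i)) :=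
      hΛ.mul_const _
    have h2 : Tendsto (fun n => (c + 1 / ((φ n : ℝ) + 1)) * (pr u (W (φ n)) +
        S (φ n) * ordZ (Z (φ n)) ((F : KM k r).coeff u))) atTop
        (𝓝 ((c + 0) * (pr u w + s * ordZ z ((F : KM k r).coeff u)))) := by
      refine Tendsto.mul (tendsto_const_nhds.add ?_) (hlim u _ hu)
      exact (tendsto_one_div_add_atTop_nhds_zero_nat (𝕜 := ℝ)).comp hφ
    rw [add_zero, ← e] at h2
    refine le_of_tendsto_of_tendsto' h1 h2 fun n => ?_
    have h3 := hlin (φ n) i hi G hG hG0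
    rw [hGe, pageVal_single _ _ _ u hu] at h3
    exact h3
  -- `c` is positive
  obtain ⟨F₁, hF₁, hF₁0⟩ := exists_ne hm0 ha one_pos
  have hcpos : 0 < c := by
    rcases hc0.lt_or_eq with h | h
    · exact h
    · have h1 := hkey 1 one_pos F₁ hF₁ hF₁0
      rw [← h, zero_mul, Nat.cast_one, mul_one] at h1
      linarith
  -- the center
  have hcent : Centered m (page z w s hs) := by
    refine centered_of hm h0 fun F hF hFm => ?_
    rw [← ha.rad 1 one_pos] at hFm
    obtain ⟨j, hj⟩ := hFm
    have hFj : ((F ^ j : ring D) : KM k r) ≠ 0 := by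
      rw [SubmonoidClass.coe_pow]
      exact pow_ne_zero j hF
    have h1 := hkey 1 one_pos _ hj hFj
    have h2 : pageVal z w s ((F ^ j : ring D) : KM k r) = j * (page z w s hs).val F := by
      rw [SubmonoidClass.coe_pow]
      exact (page z w s hs).val_pow F hF j
    rw [h2, Nat.cast_one, mul_one] at h1
    have h3 := h0 F hF
    rcases h3.lt_or_eq with h4 | h4
    · exact h4
    · rw [← h4, mul_zero, mul_zero] at h1
      linarith
  refine mem_LCP hcent ?_
  have hval : ENNReal.ofReal (Λ / c) ≤ valG (page z w s hs) a := by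
    refine le_valG a fun i hi F hF hF0 => ?_
    have h1 := hkey i hi F hF hF0
    rw [div_mul_eq_mul_div, div_le_iff₀ hcpos, mul_comm _ c]
    exact h1
  rw [disc_page, hlc]
  calc ENNReal.ofReal (lin P z w s) / valG (page z w s hs) a
      ≤ ENNReal.ofReal Λ / ENNReal.ofReal (Λ / c) :=
        ENNReal.div_le_div (ENNReal.ofReal_le_ofReal hle) hval
    _ = ENNReal.ofReal (Λ / (Λ / c)) := (ENNReal.ofReal_div_of_pos (by positivity)).symm
    _ = ENNReal.ofReal c := by
        congr 1
        field_simp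

end Pool.Agent.H14.KV
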