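import Pool.Agent.H14.KV.Move

/-!
# The value monoid of a page: functions with given orders
-/

set_option autoImplicit false

open scoped ENNReal

namespace Pool.Agent.H14.KV

open AddMonoidAlgebra (single)

variable {k : Type} [Field k] {r : ℕ}

theorem ordZ_prod (z : Option k) {ι : Type} (T : Finset ι) (f : ι → RatFunc k)
    (hf : ∀ i ∈ T, f i ≠ 0) : ordZ z (∏ i ∈ T, f i) = ∑ i ∈ T, ordZ z (f i) := by
  classical
  induction T using Finset.induction_on with
  | empty => simp [ordZ_one]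
  | insert a T ha ih =>
    rw [Finset.prod_insert ha, Finset.sum_insert ha,
      ordZ_mul z (hf a (Finset.mem_insert_self _ _))
        (Finset.prod_ne_zero_iff.2 fun i hi => hf i (Finset.mem_insert_of_mem hi)),
      ih fun i hi => hf i (Finset.mem_insert_of_mem hi)]

theorem ordZ_pow (z : Option k) {f : RatFunc k} (hf : f ≠ 0) (n : ℕ) :
    ordZ z (f ^ n) = n * ordZ z f := by
  induction n with
  | zero => simp [ordZ_one]
  | succ n ih =>
    rw [pow_succ, ordZ_mul z (pow_ne_zero n hf) hf, ih]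
    push_cast
    ring

theorem ordZ_zpow (z : Option k) {f : RatFunc k} (hf : f ≠ 0) (n : ℤ) :
    ordZ z (f ^ n) = n * ordZ z f := by
  rcases Int.eq_nat_or_neg n with ⟨m, rfl | rfl⟩
  · rw [zpow_natCast, ordZ_pow z hf]
  · rw [zpow_neg, zpow_natCast, ordZ_inv z (pow_ne_zero m hf), ordZ_pow z hf]
    ring

open Classical in
theorem exists_ord (n : Option k → ℤ) (T : Finset (Option k)) (hT : ∀ z, z ∉ T → n z = 0)
    (hsum : ∑ z ∈ T, n z = 0) : ∃ f : RatFunc k, f ≠ 0 ∧ ∀ z, ordZ z f = n z := by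
  set A := T.eraseNone with hA
  have hne : ∀ a ∈ A, (lt a) ^ (n (some a)) ≠ 0 := fun a _ => zpow_ne_zero _ (lt_ne a)
  refine ⟨∏ a ∈ A, (lt a) ^ (n (some a)), Finset.prod_ne_zero_iff.2 hne, fun z => ?_⟩
  rw [ordZ_prod z A _ hne]
  have h1 : ∑ a ∈ A, ordZ z ((lt a) ^ (n (some a))) = ∑ a ∈ A, n (some a) * ordZ z (lt a) :=
    Finset.sum_congr rfl fun a _ => ordZ_zpow z (lt_ne a) _
  rw [h1]
  cases z with
  | none =>
    have h2 : ∑ a ∈ A, n (some a) * ordZ none (lt a) = - ∑ a ∈ A, n (some a) := by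
      rw [← Finset.sum_neg_distrib]
      exact Finset.sum_congr rfl fun a _ => by rw [ordZ_lt_none]; ring
    rw [h2]
    have h3 : ∑ z ∈ A.insertNone, n z = 0 := by
      have h4 : T ⊆ A.insertNone := by
        intro z hz
        cases z with
        | none => simp
        | some a =>
          rw [Finset.some_mem_insertNone, hA]
          exact Finset.mem_eraseNone.2 hz
      rw [← hsum]
      symm
      exact Finset.sum_subset h4 fun z _ hz => hT z hz
    rw [Finset.sum_insertNone] at h3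
    linarith
  | some b =>
    rw [Finset.sum_eq_single b]
    · rw [ordZ_lt_self, mul_one]
    · intro a _ hab
      rw [ordZ_lt_ne (Ne.symm hab), mul_zero]
    · intro hb
      rw [hT (some b) fun h => hb (by rw [hA]; exact Finset.mem_eraseNone.2 h), zero_mul]

/-! ### the inequalities -/

/-- `⟨u, p⟩` for rational points -/
def prq (u : Fin r → ℤ) (p : Fin r → ℚ) : ℚ := ∑ i, (u i : ℚ) * p i

/-- the lattice points of the dual cone of the page -/
def InCone (D : PDiv k r) (z : Option k) (u : Fin r → ℤ) (j : ℤ) : Prop :=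
  (∀ ρ ∈ D.rays, 0 ≤ ∑ i, u i * ρ i) ∧ (∀ p ∈ D.V z, 0 ≤ (j : ℚ) + prq u p) ∧
    ∀ p : Option k → Fin r → ℚ, (∀ z', p z' ∈ D.V z') → (j : ℝ) ≤ pr u (vsum D z p)

theorem inCone_of_mem [IsAlgClosed k] {D : PDiv k r} {z : Option k} {u : Fin r → ℤ} {j : ℤ}
    (h : (u, j) ∈ vmon D z) : InCone D z u j := by
  obtain ⟨f, hf, hs, hj⟩ := h
  have hs' := hs.resolve_left hf
  refine ⟨hs'.1, fun p hp => ?_, fun p hp => ?_⟩
  · have := hs'.2 z p hp
    simp only at hj
    rw [hj] at this
    exact this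
  · have := ord_le z hp hf hs
    simp only at hj
    rw [hj] at this
    exact this

theorem den_of_mu {p : Fin r → ℚ} (h : mu p = 1) (i : Fin r) : (p i).den = 1 := by
  have h1 : (p i).den ∣ mu p := Finset.dvd_lcm (Finset.mem_univ i)
  rw [h] at h1
  exact Nat.dvd_one.1 h1

theorem fract_prq {p : Fin r → ℚ} (h : mu p = 1) (u : Fin r → ℤ) : Int.fract (prq u p) = 0 := by
  have e : prq u p = ((∑ i, u i * (p i).num : ℤ) : ℚ) := by
    unfold prq
    push_cast
    refine Finset.sum_congr rfl fun i _ => ?_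
    congr 1
    exact (Rat.coe_int_num_of_den_eq_one (den_of_mu h i)).symm
  rw [e]
  exact Int.fract_intCast _

open Classical in
theorem mem_of_inCone {D : PDiv k r} {z : Option k}
    (hsub : {z' | z' ≠ z ∧ ∃ p ∈ D.V z', mu p ≠ 1}.Subsingleton) {u : Fin r → ℤ} {j : ℤ}
    (h : InCone D z u j) : (u, j) ∈ vmon D z := by
  obtain ⟨hρ, hp, hv⟩ := h
  -- the vertices of least value
  have hmin : ∀ z', ∃ q ∈ D.V z', ∀ p ∈ D.V z', prq u q ≤ prq u p := fun z' =>
    Finset.exists_min_image (D.V z') (prq u) (D.nonempty z')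
  choose q hq hqmin using hmin
  have hj := hv q hq
  obtain ⟨zs, hzs⟩ : ∃ zs : Option k, zs ≠ z := by
    cases z with
    | none => exact ⟨some 0, by simp⟩
    | some a => exact ⟨none, by simp⟩
  set T : Finset (Option k) := D.fin.toFinset ∪ {z, zs} with hT
  have hzT : z ∈ T := by simp [hT]
  have hzsT : zs ∈ T.erase z := Finset.mem_erase.2 ⟨hzs, by simp [hT]⟩
  have hq0 : ∀ z', z' ∉ D.fin.toFinset → q z' = 0 := fun z' h => vertex_zero hq h
  -- the sum
  have hjq : (j : ℚ) ≤ ∑ z' ∈ T.erase z, prq u (q z') := by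
    have h1 : pr u (vsum D z q) = ((∑ z' ∈ T.erase z, prq u (q z') : ℚ) : ℝ) := by
      rw [pr_vsum]
      push_cast
      have h2 : ∀ z', ∑ i, (u i : ℝ) * (q z' i : ℝ) = ((prq u (q z') : ℚ) : ℝ) := by
        intro z'
        unfold prq
        push_cast
        rfl
      simp only [h2]
      refine Finset.sum_subset (Finset.erase_subset_erase z (by
        rw [hT]
        exact Finset.subset_union_left)) fun z' hz' hz'' => ?_
      have h3 : z' ∉ D.fin.toFinset := fun h =>
        hz'' (Finset.mem_erase.2 ⟨(Finset.mem_erase.1 hz').1, h⟩)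
      rw [hq0 z' h3]
      simp [prq]
    rw [h1] at hj
    exact_mod_cast hj
  have hfr : ∑ z' ∈ T.erase z, Int.fract (prq u (q z')) < 1 := by
    by_cases hall : ∀ z' ∈ T.erase z, Int.fract (prq u (q z')) = 0
    · rw [Finset.sum_eq_zero hall]
      exact one_pos
    · push Not at hall
      obtain ⟨z₁, hz₁, hne⟩ := hall
      have hmu : mu (q z₁) ≠ 1 := fun h => hne (fract_prq h u)
      rw [Finset.sum_eq_single_of_mem z₁ hz₁]
      · exact Int.fract_lt_one _
      · intro z' hz' hne'
        by_contra hcon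
        have hmu' : mu (q z') ≠ 1 := fun h => hcon (fract_prq h u)
        exact hne' (hsub ⟨(Finset.mem_erase.1 hz').1, _, hq z', hmu'⟩
          ⟨(Finset.mem_erase.1 hz₁).1, _, hq z₁, hmu⟩)
  have hfloor : j ≤ ∑ z' ∈ T.erase z, ⌊prq u (q z')⌋ := by
    have h1 : ∑ z' ∈ T.erase z, prq u (q z') =
        ((∑ z' ∈ T.erase z, ⌊prq u (q z')⌋ : ℤ) : ℚ) +
          ∑ z' ∈ T.erase z, Int.fract (prq u (q z')) := by
      push_cast
      rw [← Finset.sum_add_distrib]
      exact Finset.sum_congr rfl fun z' _ => (Int.floor_add_fract _).symm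
    rw [h1] at hjq
    have h2 : (j : ℚ) < ((∑ z' ∈ T.erase z, ⌊prq u (q z')⌋ : ℤ) : ℚ) + 1 := by linarith
    have h3 : j < ∑ z' ∈ T.erase z, ⌊prq u (q z')⌋ + 1 := by exact_mod_cast h2
    omega
  -- the orders
  set sur : ℤ := ∑ z' ∈ T.erase z, ⌊prq u (q z')⌋ - j with hsur
  set n : Option k → ℤ := fun z' => if z' = z then j else
    -⌊prq u (q z')⌋ + (if z' = zs then sur else 0) with hn
  obtain ⟨f, hf, hord⟩ := exists_ord n T (fun z' hz' => by
    have h1 : z' ≠ z := fun h => hz' (by rw [h]; exact hzT)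
    have h2 : z' ≠ zs := fun h => hz' (by rw [h]; exact (Finset.mem_erase.1 hzsT).2)
    have h3 : z' ∉ D.fin.toFinset := fun h => hz' (by rw [hT]; exact Finset.mem_union_left _ h)
    rw [hn]
    simp only
    rw [if_neg h1, if_neg h2, hq0 z' h3]
    simp [prq]) (by
    rw [← Finset.add_sum_erase T _ hzT]
    have h1 : n z = j := by rw [hn]; simp
    have h2 : ∑ z' ∈ T.erase z, n z' =
        ∑ z' ∈ T.erase z, (-⌊prq u (q z')⌋ + (if z' = zs then sur else 0)) := by
      refine Finset.sum_congr rfl fun z' hz' => ?_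
      rw [hn]
      simp only
      rw [if_neg (Finset.mem_erase.1 hz').1]
    rw [h1, h2, Finset.sum_add_distrib, Finset.sum_neg_distrib, Finset.sum_ite_eq',
      if_pos hzsT, hsur]
    ring)
  refine ⟨f, hf, Or.inr ⟨hρ, fun z' p hp' => ?_⟩, ?_⟩
  · rw [hord z']
    by_cases hz' : z' = z
    · subst hz'
      have h1 : n z' = j := by rw [hn]; simp
      rw [h1]
      exact hp p hp'
    · have h1 : n z' = -⌊prq u (q z')⌋ + (if z' = zs then sur else 0) := by
        rw [hn]
        simp only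
        rw [if_neg hz']
      have h2 : (⌊prq u (q z')⌋ : ℚ) ≤ prq u (q z') := Int.floor_le _
      have h3 := hqmin z' p hp'
      have h4 : (0 : ℚ) ≤ ((if z' = zs then sur else 0 : ℤ) : ℚ) := by
        have : 0 ≤ (if z' = zs then sur else 0 : ℤ) := by
          split_ifs
          · rw [hsur]; omega
          · exact le_rfl
        exact_mod_cast this
      rw [h1]
      push_cast at h4 ⊢
      unfold prq at h2 h3 ⊢
      linarith
  · simp only
    rw [hord z, hn]
    simp

end Pool.Agent.H14.KV
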