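import Pool.Agent.H14.KV.Exist

/-!
# From a page which is not special to the spine
-/

set_option autoImplicit false

open scoped ENNReal

namespace Pool.Agent.H14.KV

open AddMonoidAlgebra (single)

variable {k : Type} [Field k] {r : ℕ} {D : PDiv k r}

theorem pr_vsum [DecidableEq (Option k)] (z : Option k) (p : Option k → Fin r → ℚ)
    (u : Fin r → ℤ) :
    pr u (vsum D z p) = ∑ z' ∈ D.fin.toFinset.erase z, ∑ i, (u i : ℝ) * (p z' i : ℝ) := by
  unfold pr vsum
  rw [Finset.sum_comm]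
  refine Finset.sum_congr rfl fun i _ => ?_
  rw [Finset.mul_sum]
  refine Finset.sum_congr ?_ fun _ _ => rfl
  ext z'
  exact (@Finset.mem_erase _ (_) _ _ _).trans (@Finset.mem_erase _ (_) _ _ _).symm

theorem vertex_zero {p : Option k → Fin r → ℚ} (hp : ∀ z', p z' ∈ D.V z') {z' : Option k}
    (h : z' ∉ D.fin.toFinset) : p z' = 0 := by
  rw [Set.Finite.mem_toFinset] at h
  have h1 : D.V z' = {0} := not_not.1 h
  have h2 := hp z'
  rw [h1, Finset.mem_singleton] at h2
  exact h2

/-- the key inequality -/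
theorem ord_le [IsAlgClosed k] (z : Option k) {p : Option k → Fin r → ℚ}
    (hp : ∀ z', p z' ∈ D.V z') {u : Fin r → ℤ} {f : RatFunc k} (hf : f ≠ 0) (hs : Sec D u f) :
    (ordZ z f : ℝ) ≤ pr u (vsum D z p) := by
  classical
  have hs' := hs.resolve_left hf
  set T : Finset (Option k) := D.fin.toFinset ∪ (fin_ord f).toFinset ∪ {z} with hT
  have hsum := sum_ord f T fun z' hz' => by
    rw [hT]
    simp only [Finset.mem_union, Set.Finite.mem_toFinset]
    exact Or.inl (Or.inr hz')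
  have hzT : z ∈ T := by simp [hT]
  rw [← Finset.add_sum_erase T _ hzT] at hsum
  have h1 : ((∑ z' ∈ T.erase z, ordZ z' f : ℤ) : ℝ) = -(ordZ z f : ℝ) := by
    have : (∑ z' ∈ T.erase z, ordZ z' f : ℤ) = - ordZ z f := by linarith
    rw [this]
    push_cast
    ring
  have h2 : ∑ z' ∈ T.erase z, ∑ i, (u i : ℝ) * (p z' i : ℝ) = pr u (vsum D z p) := by
    rw [pr_vsum]
    symm
    refine Finset.sum_subset (Finset.erase_subset_erase z (by
      rw [hT]
      exact Finset.subset_union_left.trans Finset.subset_union_left)) fun z' hz' hz'' => ?_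
    have h3 : z' ∉ D.fin.toFinset := fun h =>
      hz'' (Finset.mem_erase.2 ⟨(Finset.mem_erase.1 hz').1, h⟩)
    rw [vertex_zero hp h3]
    simp
  rw [← h2]
  have h3 : ∑ z' ∈ T.erase z, (-(ordZ z' f : ℝ)) ≤
      ∑ z' ∈ T.erase z, ∑ i, (u i : ℝ) * (p z' i : ℝ) := by
    refine Finset.sum_le_sum fun z' _ => ?_
    have h4 := hs'.2 z' (p z') (hp z')
    have h5 : (0 : ℝ) ≤ (ordZ z' f : ℝ) + ∑ i, (u i : ℝ) * (p z' i : ℝ) := by exact_mod_cast h4
    linarith
  rw [Finset.sum_neg_distrib] at h3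
  push_cast at h1
  linarith

theorem mu_pos (p : Fin r → ℚ) : 0 < mu p := by
  unfold mu
  rw [Nat.pos_iff_ne_zero, Ne, Finset.lcm_eq_zero_iff]
  rintro ⟨i, _, hi⟩
  exact (p i).den_nz hi

/-- the bound which effectivity gives -/
theorem lin_vertex {P : Pair k r} (heff : Effective D P) (z : Option k) {p : Fin r → ℚ}
    (hp : p ∈ D.V z) : lin P z (fun i => (p i : ℝ)) 1 ≤ 1 / (mu p : ℝ) := by
  have h := heff z p hp
  rw [disc_page, ENNReal.ofReal_le_one] at h
  have e := lin_smul P z (mu p : ℝ) (fun i => (p i : ℝ)) 1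
  rw [mul_one] at e
  rw [e] at h
  have h0 : (0 : ℝ) < mu p := by exact_mod_cast mu_pos p
  rw [le_div_iff₀ h0, mul_comm]
  exact h

open Classical in
/-- two vertices which are not lattice points -/
theorem lin_nonpos [IsAlgClosed k] {P : Pair k r} (heff : Effective D P) (z : Option k)
    {p : Option k → Fin r → ℚ} (hp : ∀ z', p z' ∈ D.V z') {z₁ z₂ : Option k} (h12 : z₁ ≠ z₂)
    (h1 : z₁ ≠ z) (h2 : z₂ ≠ z) (hm1 : mu (p z₁) ≠ 1) (hm2 : mu (p z₂) ≠ 1) :
    lin P z (vsum D z p) (-1) ≤ 0 := by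
  set T : Finset (Option k) := D.fin.toFinset ∪ (fin_ord P.h).toFinset ∪ {z, z₁, z₂, none} with hT
  have hN : (0 : ℝ) < P.N := by exact_mod_cast P.pos
  have hzT : z ∈ T := by simp [hT]
  have h1T : z₁ ∈ T.erase z := Finset.mem_erase.2 ⟨h1, by simp [hT]⟩
  have h2T : z₂ ∈ (T.erase z).erase z₁ :=
    Finset.mem_erase.2 ⟨h12.symm, Finset.mem_erase.2 ⟨h2, by simp [hT]⟩⟩
  -- the orders of `h`
  have hord := sum_ord P.h T fun z' hz' => by
    rw [hT]
    simp only [Finset.mem_union, Set.Finite.mem_toFinset]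
    exact Or.inl (Or.inr hz')
  rw [← Finset.add_sum_erase T _ hzT] at hord
  have hord' : ∑ z' ∈ T.erase z, (ordZ z' P.h : ℝ) = -(ordZ z P.h : ℝ) := by
    have : (∑ z' ∈ T.erase z, ordZ z' P.h : ℤ) = - ordZ z P.h := by linarith
    have h3 : ((∑ z' ∈ T.erase z, ordZ z' P.h : ℤ) : ℝ) = -(ordZ z P.h : ℝ) := by
      rw [this]
      push_cast
      ring
    push_cast at h3
    exact h3
  -- the canonical divisor of the line
  have hkap : ∑ z' ∈ T, (1 - (if z' = none then (-1 : ℝ) else 1)) = 2 := by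
    rw [Finset.sum_eq_single none]
    · rw [if_pos rfl]
      norm_num
    · intro b _ hb
      rw [if_neg hb]
      norm_num
    · intro h
      exact absurd (by simp [hT]) h
  rw [← Finset.add_sum_erase T _ hzT] at hkap
  -- the vertices
  have hvs : pr P.q (vsum D z p) =
      ∑ z' ∈ T.erase z, ∑ i, (P.q i : ℝ) * (p z' i : ℝ) := by
    rw [pr_vsum]
    refine Finset.sum_subset (Finset.erase_subset_erase z (by
      rw [hT]
      exact Finset.subset_union_left.trans Finset.subset_union_left)) fun z' hz' hz'' => ?_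
    have h3 : z' ∉ D.fin.toFinset := fun h =>
      hz'' (Finset.mem_erase.2 ⟨(Finset.mem_erase.1 hz').1, h⟩)
    rw [vertex_zero hp h3]
    simp
  have hlz : ∀ z' : Option k, lin P z' (fun i => (p z' i : ℝ)) 1 =
      (if z' = none then (-1 : ℝ) else 1) -
        (∑ i, (P.q i : ℝ) * (p z' i : ℝ) + ordZ z' P.h) / P.N := by
    intro z'
    unfold lin pr
    rw [one_mul]
  -- the identity
  have hid : lin P z (vsum D z p) (-1) = 1 +
      ∑ z' ∈ T.erase z, (lin P z' (fun i => (p z' i : ℝ)) 1 - 1) := by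
    have e1 : ∑ z' ∈ T.erase z, (lin P z' (fun i => (p z' i : ℝ)) 1 - 1) =
        -(∑ z' ∈ T.erase z, (1 - (if z' = none then (-1 : ℝ) else 1))) -
        (pr P.q (vsum D z p) + ∑ z' ∈ T.erase z, (ordZ z' P.h : ℝ)) / P.N := by
      rw [hvs, ← Finset.sum_add_distrib, Finset.sum_div, ← Finset.sum_neg_distrib,
        ← Finset.sum_sub_distrib]
      refine Finset.sum_congr rfl fun z' _ => ?_
      rw [hlz]
      ring
    rw [e1, hord']
    have e2 : lin P z (vsum D z p) (-1) = -(if z = none then (-1 : ℝ) else 1) -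
        (pr P.q (vsum D z p) - ordZ z P.h) / P.N := by
      unfold lin
      split_ifs <;> ring
    rw [e2]
    have e3 : ∑ z' ∈ T.erase z, (1 - (if z' = none then (-1 : ℝ) else 1)) =
        1 + (if z = none then (-1 : ℝ) else 1) := by linarith
    rw [e3]
    ring
  rw [hid]
  have hterm : ∀ z', lin P z' (fun i => (p z' i : ℝ)) 1 - 1 ≤ 0 := by
    intro z'
    have h3 := lin_vertex heff z' (hp z')
    have h4 : (1 : ℝ) ≤ mu (p z') := by exact_mod_cast mu_pos (p z')
    have h5 : 1 / (mu (p z') : ℝ) ≤ 1 := by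
      rw [div_le_one (by linarith)]
      exact h4
    linarith
  have htwo : ∀ z', mu (p z') ≠ 1 → lin P z' (fun i => (p z' i : ℝ)) 1 - 1 ≤ -(1 / 2) := by
    intro z' hz'
    have h3 := lin_vertex heff z' (hp z')
    have h4 : 2 ≤ mu (p z') := by
      have := mu_pos (p z')
      omega
    have h4' : (2 : ℝ) ≤ mu (p z') := by exact_mod_cast h4
    have h5 : 1 / (mu (p z') : ℝ) ≤ 1 / 2 :=
      one_div_le_one_div_of_le (by norm_num) h4'
    linarith
  rw [← Finset.add_sum_erase _ _ h1T, ← Finset.add_sum_erase _ _ h2T]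
  have h6 : ∑ z' ∈ ((T.erase z).erase z₁).erase z₂,
      (lin P z' (fun i => (p z' i : ℝ)) 1 - 1) ≤ 0 := Finset.sum_nonpos fun z' _ => hterm z'
  linarith [htwo z₁ hm1, htwo z₂ hm2]

end Pool.Agent.H14.KV
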