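import Pool.Agent.H14.KV.Defs

/-!
# Orders of rational functions at the points of the projective line
-/

set_option autoImplicit false

open Polynomial (rootMultiplicity)

namespace Pool.Agent.H14.KV

variable {k : Type} [Field k]

/-- the order of a polynomial -/
noncomputable def ordP (z : Option k) (p : Polynomial k) : ℤ :=
  match z with
  | some a => (p.rootMultiplicity a : ℤ)
  | none => -(p.natDegree : ℤ)

theorem ordP_mul (z : Option k) {p q : Polynomial k} (hp : p ≠ 0) (hq : q ≠ 0) :
    ordP z (p * q) = ordP z p + ordP z q := by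
  cases z with
  | none =>
    simp only [ordP]
    rw [Polynomial.natDegree_mul hp hq]
    push_cast
    ring
  | some a =>
    simp only [ordP]
    rw [Polynomial.rootMultiplicity_mul (mul_ne_zero hp hq)]
    push_cast
    ring

theorem ordP_add (z : Option k) {p q : Polynomial k} (hpq : p + q ≠ 0) :
    min (ordP z p) (ordP z q) ≤ ordP z (p + q) := by
  cases z with
  | none =>
    simp only [ordP]
    have h := Polynomial.natDegree_add_le p q
    have h2 : ((p + q).natDegree : ℤ) ≤ max (p.natDegree : ℤ) (q.natDegree : ℤ) := by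
      exact_mod_cast h
    rcases max_cases (p.natDegree : ℤ) (q.natDegree : ℤ) with ⟨h3, _⟩ | ⟨h3, _⟩ <;>
      rw [h3] at h2
    · exact (min_le_left _ _).trans (by omega)
    · exact (min_le_right _ _).trans (by omega)
  | some a =>
    simp only [ordP]
    have h := Polynomial.rootMultiplicity_add a hpq
    exact_mod_cast h

theorem ordZ_eq (z : Option k) (f : RatFunc k) : ordZ z f = ordP z f.num - ordP z f.denom := by
  cases z with
  | none => simp only [ordZ, ordP]; ring
  | some a => simp only [ordZ, ordP]

theorem ordZ_div (z : Option k) {p q : Polynomial k} (hp : p ≠ 0) (hq : q ≠ 0) :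
    ordZ z (algebraMap _ _ p / algebraMap _ _ q : RatFunc k) = ordP z p - ordP z q := by
  set f : RatFunc k := algebraMap _ _ p / algebraMap _ _ q with hf
  have hq' : (algebraMap (Polynomial k) (RatFunc k) q) ≠ 0 := RatFunc.algebraMap_ne_zero hq
  have hp' : (algebraMap (Polynomial k) (RatFunc k) p) ≠ 0 := RatFunc.algebraMap_ne_zero hp
  have hf0 : f ≠ 0 := div_ne_zero hp' hq'
  have h1 : f.num * q = p * f.denom := by
    apply RatFunc.algebraMap_injective k
    rw [map_mul, map_mul]
    have h2 : algebraMap (Polynomial k) (RatFunc k) f.denom ≠ 0 :=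
      RatFunc.algebraMap_ne_zero f.denom_ne_zero
    have h3 := RatFunc.num_div_denom f
    rw [div_eq_iff h2] at h3
    rw [h3, hf]
    field_simp
  have h4 : ordP z f.num + ordP z q = ordP z p + ordP z f.denom := by
    rw [← ordP_mul z (RatFunc.num_ne_zero hf0) hq, ← ordP_mul z hp f.denom_ne_zero, h1]
  rw [ordZ_eq]
  linarith

theorem ordZ_poly (z : Option k) {p : Polynomial k} (hp : p ≠ 0) :
    ordZ z (algebraMap _ _ p : RatFunc k) = ordP z p := by
  have h := ordZ_div z hp (one_ne_zero : (1 : Polynomial k) ≠ 0)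
  rw [map_one, div_one] at h
  rw [h]
  cases z with
  | none => simp [ordP]
  | some a => simp [ordP]

theorem ordZ_mul (z : Option k) {f g : RatFunc k} (hf : f ≠ 0) (hg : g ≠ 0) :
    ordZ z (f * g) = ordZ z f + ordZ z g := by
  have h : f * g = algebraMap _ _ (f.num * g.num) / algebraMap _ _ (f.denom * g.denom) := by
    rw [map_mul, map_mul, ← div_mul_div_comm, RatFunc.num_div_denom, RatFunc.num_div_denom]
  rw [h, ordZ_div z (mul_ne_zero (RatFunc.num_ne_zero hf) (RatFunc.num_ne_zero hg))
    (mul_ne_zero f.denom_ne_zero g.denom_ne_zero), ordP_mul z (RatFunc.num_ne_zero hf)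
    (RatFunc.num_ne_zero hg), ordP_mul z f.denom_ne_zero g.denom_ne_zero, ordZ_eq, ordZ_eq]
  ring

theorem ordZ_one (z : Option k) : ordZ z (1 : RatFunc k) = 0 := by
  have h := ordZ_mul z (one_ne_zero : (1 : RatFunc k) ≠ 0) one_ne_zero
  rw [mul_one] at h
  linarith

theorem ordZ_inv (z : Option k) {f : RatFunc k} (hf : f ≠ 0) : ordZ z f⁻¹ = - ordZ z f := by
  have h := ordZ_mul z hf (inv_ne_zero hf)
  rw [mul_inv_cancel₀ hf, ordZ_one] at h
  linarith

theorem ordZ_C (z : Option k) {c : k} (hc : c ≠ 0) : ordZ z (RatFunc.C c) = 0 := by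
  have h : (RatFunc.C c : RatFunc k) = algebraMap _ _ (Polynomial.C c) := by simp
  rw [h, ordZ_poly z (Polynomial.C_ne_zero.2 hc)]
  cases z with
  | none => simp [ordP]
  | some a => simp [ordP]

theorem ordZ_neg (z : Option k) (f : RatFunc k) : ordZ z (-f) = ordZ z f := by
  by_cases hf : f = 0
  · rw [hf, neg_zero]
  · have h : -f = RatFunc.C (-1) * f := by simp
    rw [h, ordZ_mul z (by simp) hf, ordZ_C z (by simp), zero_add]

theorem ordZ_add (z : Option k) {f g : RatFunc k} (hf : f ≠ 0) (hg : g ≠ 0) (hfg : f + g ≠ 0) :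
    min (ordZ z f) (ordZ z g) ≤ ordZ z (f + g) := by
  have hd : f.denom * g.denom ≠ 0 := mul_ne_zero f.denom_ne_zero g.denom_ne_zero
  have h : f + g = algebraMap _ _ (f.num * g.denom + f.denom * g.num) /
      algebraMap _ _ (f.denom * g.denom) := by
    conv_lhs => rw [← RatFunc.num_div_denom f, ← RatFunc.num_div_denom g]
    rw [div_add_div _ _ (RatFunc.algebraMap_ne_zero f.denom_ne_zero)
      (RatFunc.algebraMap_ne_zero g.denom_ne_zero)]
    simp only [map_mul, map_add]
  have hn : f.num * g.denom + f.denom * g.num ≠ 0 := by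
    intro h0
    rw [h0, map_zero, zero_div] at h
    exact hfg h
  rw [h, ordZ_div z hn hd]
  have h2 := ordP_add z hn
  rw [ordP_mul z (RatFunc.num_ne_zero hf) g.denom_ne_zero,
    ordP_mul z f.denom_ne_zero (RatFunc.num_ne_zero hg)] at h2
  rw [ordP_mul z f.denom_ne_zero g.denom_ne_zero, ordZ_eq, ordZ_eq]
  rcases min_le_iff.1 h2 with h3 | h3
  · exact (min_le_left _ _).trans (by linarith)
  · exact (min_le_right _ _).trans (by linarith)

/-- the strict triangle equality -/
theorem ordZ_add_lt (z : Option k) {f g : RatFunc k} (hf : f ≠ 0)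
    (h : g ≠ 0 → ordZ z f < ordZ z g) : f + g ≠ 0 ∧ ordZ z (f + g) = ordZ z f := by
  by_cases hg : g = 0
  · rw [hg, add_zero]
    exact ⟨hf, rfl⟩
  have h := h hg
  have h0 : f + g ≠ 0 := by
    intro h0
    have : g = -f := by linear_combination h0
    rw [this, ordZ_neg] at h
    exact lt_irrefl _ h
  refine ⟨h0, le_antisymm ?_ ?_⟩
  · have h1 : (f + g) + (-g) ≠ 0 := by simpa using hf
    have h2 := ordZ_add z h0 (neg_ne_zero.2 hg) h1
    rw [ordZ_neg] at h2
    have h3 : (f + g) + -g = f := by ring
    rw [h3] at h2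
    rcases min_le_iff.1 h2 with h4 | h4
    · exact h4
    · exact absurd h4 (not_le.2 h)
  · have h2 := ordZ_add z hf hg h0
    rw [min_eq_left h.le] at h2
    exact h2

theorem ordP_some_nonneg (a : k) (p : Polynomial k) : 0 ≤ ordP (some a) p := by
  simp only [ordP]
  positivity

/-- finitely many zeros and poles -/
theorem fin_ord (f : RatFunc k) : {z | ordZ z f ≠ 0}.Finite := by
  by_cases hf : f = 0
  · subst hf
    have : {z : Option k | ordZ z (0 : RatFunc k) ≠ 0} = ∅ := by
      ext z
      simp only [Set.mem_ofPred_eq, Set.mem_empty_iff_false, iff_false, not_not]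
      cases z with
      | none => simp [ordZ]
      | some a => simp [ordZ]
    rw [this]
    exact Set.finite_empty
  classical
  refine ((f.num.roots.toFinset ∪ f.denom.roots.toFinset).image some ∪ {none}).finite_toSet.subset
    ?_
  intro z hz
  cases z with
  | none => simp
  | some a =>
    simp only [Set.mem_ofPred_eq, ordZ] at hz
    simp only [Finset.coe_union, Finset.coe_image, Finset.coe_singleton, Set.mem_union,
      Set.mem_image, Finset.mem_coe, Multiset.mem_toFinset, Set.mem_singleton_iff,
      reduceCtorEq, or_false]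
    refine ⟨a, ?_, rfl⟩
    rw [Polynomial.mem_roots (RatFunc.num_ne_zero hf), Polynomial.mem_roots f.denom_ne_zero]
    by_contra h
    push Not at h
    apply hz
    rw [Polynomial.rootMultiplicity_eq_zero h.1, Polynomial.rootMultiplicity_eq_zero h.2]
    simp

open Classical in
theorem sum_root [IsAlgClosed k] (p : Polynomial k) (S : Finset k) (hS : p.roots.toFinset ⊆ S) :
    ∑ a ∈ S, (p.rootMultiplicity a : ℤ) = p.natDegree := by
  have h1 : p.roots.card = p.natDegree := (IsAlgClosed.splits p).natDegree_eq_card_roots.symm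
  have h2 : p.roots.card = ∑ a ∈ S, p.roots.count a := by
    rw [← Multiset.toFinset_sum_count_eq]
    refine Finset.sum_subset hS fun a _ ha => ?_
    rw [Multiset.mem_toFinset] at ha
    exact Multiset.count_eq_zero.2 ha
  rw [← h1, h2]
  push_cast
  refine Finset.sum_congr rfl fun a _ => ?_
  rw [Polynomial.count_roots]

open Classical in
/-- the product formula -/
theorem sum_ord [IsAlgClosed k] (f : RatFunc k) (T : Finset (Option k))
    (hT : ∀ z, ordZ z f ≠ 0 → z ∈ T) : ∑ z ∈ T, ordZ z f = 0 := by
  set A : Finset k := f.num.roots.toFinset ∪ f.denom.roots.toFinset ∪ T.eraseNone with hA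
  have h1 : ∑ z ∈ T, ordZ z f = ∑ z ∈ A.insertNone, ordZ z f := by
    have h2 : T ⊆ A.insertNone ∪ T := Finset.subset_union_right
    have h3 : A.insertNone ∪ T = A.insertNone := by
      refine Finset.union_eq_left.2 fun z hz => ?_
      cases z with
      | none => simp
      | some a =>
        rw [Finset.some_mem_insertNone, hA]
        exact Finset.mem_union_right _ (Finset.mem_eraseNone.2 hz)
    rw [h3] at h2
    refine Finset.sum_subset h2 fun z _ hz => ?_
    by_contra h
    exact hz (hT z h)
  rw [h1, Finset.sum_insertNone]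
  have h4 := sum_root f.num A (by
    rw [hA]
    exact (Finset.subset_union_left).trans Finset.subset_union_left)
  have h5 := sum_root f.denom A (by
    rw [hA]
    exact (Finset.subset_union_right).trans Finset.subset_union_left)
  simp only [ordZ]
  rw [Finset.sum_sub_distrib, h4, h5]
  ring

end Pool.Agent.H14.KV
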