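import Pool.Agent.H14.KV.Val

/-!
# Arbitrary real valuations: restriction to the homogeneous elements
-/

set_option autoImplicit false

namespace Pool.Agent.H14.KV

open AddMonoidAlgebra (single)

variable {k : Type} [Field k] {r : ℕ}

namespace RVal

variable (v : RVal k r)

theorem val_one : v.val 1 = 0 := by
  have h := v.mul 1 1 one_ne_zero one_ne_zero
  rw [mul_one] at h
  linarith

theorem val_sum_ge (B : ℝ) {ι : Type} (T : Finset ι) (f : ι → KM k r)
    (hf : ∀ i ∈ T, f i ≠ 0 → B ≤ v.val (f i)) (h : ∑ i ∈ T, f i ≠ 0) :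
    B ≤ v.val (∑ i ∈ T, f i) :=
  sum_pred (fun F => B ≤ v.val F)
    (fun F G hF hG hFG h1 h2 => (le_min h1 h2).trans (v.add F G hF hG hFG)) T f hf h

theorem val_prod {ι : Type} (T : Finset ι) (f : ι → KM k r) (hf : ∀ i ∈ T, f i ≠ 0) :
    v.val (∏ i ∈ T, f i) = ∑ i ∈ T, v.val (f i) := by
  classical
  induction T using Finset.induction_on with
  | empty => simp [val_one]
  | insert a T ha ih =>
    rw [Finset.prod_insert ha, Finset.sum_insert ha,
      v.mul _ _ (hf a (Finset.mem_insert_self _ _))
        (Finset.prod_ne_zero_iff.2 fun i hi => hf i (Finset.mem_insert_of_mem hi)),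
      ih fun i hi => hf i (Finset.mem_insert_of_mem hi)]

theorem val_pow (F : KM k r) (hF : F ≠ 0) (n : ℕ) : v.val (F ^ n) = n * v.val F := by
  induction n with
  | zero => simp [val_one]
  | succ n ih =>
    rw [pow_succ, v.mul _ _ (pow_ne_zero n hF) hF, ih]
    push_cast
    ring

/-- the weight vector -/
noncomputable def wt (i : Fin r) : ℝ := v.val (single (Pi.single i 1) 1)

/-- the restriction to `k(t)` -/
noncomputable def res (f : RatFunc k) : ℝ := v.val (single 0 f)

theorem res_mul {f g : RatFunc k} (hf : f ≠ 0) (hg : g ≠ 0) :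
    v.res (f * g) = v.res f + v.res g := by
  unfold res
  rw [← v.mul _ _ (single_ne hf) (single_ne hg), AddMonoidAlgebra.single_mul_single, add_zero]

theorem res_add {f g : RatFunc k} (hf : f ≠ 0) (hg : g ≠ 0) (hfg : f + g ≠ 0) :
    min (v.res f) (v.res g) ≤ v.res (f + g) := by
  unfold res
  have h : (single 0 (f + g) : KM k r) = single 0 f + single 0 g := by
    rw [AddMonoidAlgebra.single_add]
  rw [h]
  refine v.add _ _ (single_ne hf) (single_ne hg) ?_
  rw [← h]
  exact single_ne hfg

theorem res_C {c : k} (hc : c ≠ 0) : v.res (RatFunc.C c) = 0 := v.triv c hc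

theorem res_one : v.res 1 = 0 := by
  have h := v.res_mul (one_ne_zero : (1 : RatFunc k) ≠ 0) one_ne_zero
  rw [mul_one] at h
  linarith

/-- the character values -/
theorem val_chi (u : Fin r → ℤ) : v.val (single u 1) = pr u v.wt := by
  have h1 : (1 : RatFunc k) ≠ 0 := one_ne_zero
  let g : (Fin r → ℤ) →+ ℝ :=
    { toFun := fun u => v.val (single u 1)
      map_zero' := v.res_one
      map_add' := fun a b => by
        rw [← v.mul _ _ (single_ne h1) (single_ne h1), AddMonoidAlgebra.single_mul_single,
          mul_one] }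
  have h2 : g u = ∑ i, (u i : ℝ) * g (Pi.single i 1) := by
    have e : u = ∑ i, u i • (Pi.single i 1 : Fin r → ℤ) := by
      funext j
      rw [Finset.sum_apply]
      simp [Pi.single_apply]
    conv_lhs => rw [e]
    rw [map_sum]
    refine Finset.sum_congr rfl fun i _ => ?_
    rw [map_zsmul, zsmul_eq_mul]
  exact h2

theorem val_single (u : Fin r → ℤ) {f : RatFunc k} (hf : f ≠ 0) :
    v.val (single u f) = pr u v.wt + v.res f := by
  have h : (single u f : KM k r) = single u 1 * single 0 f := by
    rw [AddMonoidAlgebra.single_mul_single, add_zero, one_mul]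
  rw [h, v.mul _ _ (single_ne one_ne_zero) (single_ne hf), v.val_chi]
  rfl

end RVal

/-! ### valuations of `k(t)` -/

/-- the linear polynomial `t - a` in `k(t)` -/
noncomputable def lt (a : k) : RatFunc k := algebraMap _ _ (Polynomial.X - Polynomial.C a)

theorem lt_ne (a : k) : lt a ≠ 0 := RatFunc.algebraMap_ne_zero (Polynomial.X_sub_C_ne_zero a)

theorem lt_sub (a b : k) : lt a - lt b = RatFunc.C (b - a) := by
  unfold lt
  rw [← map_sub, ← RatFunc.algebraMap_C]
  congr 1
  rw [map_sub]
  ring

theorem ordZ_lt_self (a : k) : ordZ (some a) (lt a) = 1 := by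
  unfold lt
  rw [ordZ_poly _ (Polynomial.X_sub_C_ne_zero a)]
  simp only [ordP]
  rw [Polynomial.rootMultiplicity_X_sub_C_self]
  rfl

theorem ordZ_lt_ne {a b : k} (h : b ≠ a) : ordZ (some b) (lt a) = 0 := by
  classical
  unfold lt
  rw [ordZ_poly _ (Polynomial.X_sub_C_ne_zero a)]
  simp only [ordP]
  rw [Polynomial.rootMultiplicity_X_sub_C, if_neg h]
  rfl

theorem ordZ_lt_none (a : k) : ordZ none (lt a) = -1 := by
  unfold lt
  rw [ordZ_poly _ (Polynomial.X_sub_C_ne_zero a)]
  simp only [ordP]
  rw [Polynomial.natDegree_X_sub_C]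
  rfl

namespace RVal

variable (v : RVal k r)

/-- two functions on `k(t)` which are additive and agree on the linear polynomials and the
constants agree -/
theorem ext_res [IsAlgClosed k] (g : RatFunc k → ℝ)
    (hm : ∀ f f' : RatFunc k, f ≠ 0 → f' ≠ 0 → g (f * f') = g f + g f')
    (hC : ∀ c : k, c ≠ 0 → g (RatFunc.C c) = 0) (hl : ∀ a, v.res (lt a) = g (lt a))
    {f : RatFunc k} (hf : f ≠ 0) : v.res f = g f := by
  have hpoly : ∀ p : Polynomial k, p ≠ 0 →
      v.res (algebraMap _ _ p) = g (algebraMap _ _ p) := by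
    intro p
    induction hn : p.natDegree using Nat.strong_induction_on generalizing p with
    | _ n ih =>
      intro hp
      by_cases h0 : p.natDegree = 0
      · rw [Polynomial.eq_C_of_natDegree_eq_zero h0]
        have hc : p.coeff 0 ≠ 0 := by
          intro hc
          apply hp
          rw [Polynomial.eq_C_of_natDegree_eq_zero h0, hc, map_zero]
        rw [RatFunc.algebraMap_C, v.res_C hc, hC _ hc]
      · obtain ⟨a, ha⟩ := IsAlgClosed.exists_root p (by
          intro h
          apply h0
          exact Polynomial.natDegree_eq_of_degree_eq_some h)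
        obtain ⟨q, rfl⟩ := Polynomial.dvd_iff_isRoot.2 ha
        have hq : q ≠ 0 := right_ne_zero_of_mul hp
        have hq' : (algebraMap (Polynomial k) (RatFunc k) q) ≠ 0 :=
          RatFunc.algebraMap_ne_zero hq
        have hdeg : q.natDegree < n := by
          rw [← hn, Polynomial.natDegree_mul (Polynomial.X_sub_C_ne_zero a) hq,
            Polynomial.natDegree_X_sub_C]
          omega
        rw [map_mul]
        change v.res (lt a * _) = g (lt a * _)
        rw [v.res_mul (lt_ne a) hq', hm _ _ (lt_ne a) hq', hl, ih _ hdeg q rfl hq]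
  have hn : (algebraMap (Polynomial k) (RatFunc k) f.num) ≠ 0 :=
    RatFunc.algebraMap_ne_zero (RatFunc.num_ne_zero hf)
  have hd : (algebraMap (Polynomial k) (RatFunc k) f.denom) ≠ 0 :=
    RatFunc.algebraMap_ne_zero f.denom_ne_zero
  have e : f * algebraMap _ _ f.denom = algebraMap _ _ f.num := by
    have h := RatFunc.num_div_denom f
    rw [div_eq_iff hd] at h
    exact h.symm
  have h1 : v.res f + v.res (algebraMap _ _ f.denom) = v.res (algebraMap _ _ f.num) := by
    rw [← v.res_mul hf hd, e]
  have h2 : g f + g (algebraMap _ _ f.denom) = g (algebraMap _ _ f.num) := by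
    rw [← hm _ _ hf hd, e]
  rw [hpoly _ (RatFunc.num_ne_zero hf), hpoly _ f.denom_ne_zero] at h1
  linarith

/-- the valuations of `k(t)` which are trivial on `k` -/
theorem exists_page [IsAlgClosed k] : ∃ (z : Option k) (s : ℝ), 0 ≤ s ∧
    ∀ f : RatFunc k, f ≠ 0 → v.res f = s * ordZ z f := by
  have hadd : ∀ z : Option k, ∀ s : ℝ, ∀ f f' : RatFunc k, f ≠ 0 → f' ≠ 0 →
      s * (ordZ z (f * f') : ℝ) = s * ordZ z f + s * ordZ z f' := by
    intro z s f f' hf hf'
    rw [ordZ_mul z hf hf']
    push_cast
    ring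
  have hC : ∀ z : Option k, ∀ s : ℝ, ∀ c : k, c ≠ 0 → s * (ordZ z (RatFunc.C c) : ℝ) = 0 := by
    intro z s c hc
    rw [ordZ_C z hc]
    simp
  have hC0 : ∀ {c : k}, c ≠ 0 → (RatFunc.C c : RatFunc k) ≠ 0 := by
    intro c hc
    simpa using hc
  -- the values at two linear polynomials
  have h2 : ∀ a b : k, a ≠ b → min (v.res (lt b)) 0 ≤ v.res (lt a) ∧
      min (v.res (lt a)) (v.res (lt b)) ≤ 0 := by
    intro a b hab
    constructor
    · have e : lt a = lt b + RatFunc.C (b - a) := by
        rw [← lt_sub]
        ring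
      have h := v.res_add (lt_ne b) (hC0 (sub_ne_zero.2 hab.symm)) (by
        rw [← e]
        exact lt_ne a)
      rw [← e, v.res_C (sub_ne_zero.2 hab.symm)] at h
      exact h
    · have e : (RatFunc.C (b - a) : RatFunc k) = lt a + RatFunc.C (-1) * lt b := by
        rw [← lt_sub]
        simp
        ring
      have hm1 : (RatFunc.C (-1) : RatFunc k) ≠ 0 := hC0 (by simp)
      have h := v.res_add (lt_ne a) (mul_ne_zero hm1 (lt_ne b)) (by
        rw [← e]
        exact hC0 (sub_ne_zero.2 hab.symm))
      rw [← e, v.res_C (sub_ne_zero.2 hab.symm), v.res_mul hm1 (lt_ne b),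
        v.res_C (by simp), zero_add] at h
      exact h
  by_cases hneg : ∃ a, v.res (lt a) < 0
  · obtain ⟨a, ha⟩ := hneg
    have hall : ∀ b, v.res (lt b) = v.res (lt a) := by
      intro b
      by_cases hab : a = b
      · rw [hab]
      · have h3 := (h2 a b hab).1
        have h4 := (h2 b a (Ne.symm hab)).1
        rcases min_le_iff.1 h3 with h5 | h5
        · rcases min_le_iff.1 h4 with h6 | h6
          · exact le_antisymm h5 h6
          · linarith
        · linarith
    refine ⟨none, - v.res (lt a), by linarith, fun f hf => ?_⟩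
    refine v.ext_res (fun f => -v.res (lt a) * (ordZ none f : ℝ)) (hadd _ _) (hC _ _)
      (fun b => ?_) hf
    rw [hall b, ordZ_lt_none]
    push_cast
    ring
  push Not at hneg
  by_cases hpos : ∃ a, 0 < v.res (lt a)
  · obtain ⟨a, ha⟩ := hpos
    refine ⟨some a, v.res (lt a), ha.le, fun f hf => ?_⟩
    refine v.ext_res (fun f => v.res (lt a) * (ordZ (some a) f : ℝ)) (hadd _ _) (hC _ _)
      (fun b => ?_) hf
    by_cases hab : a = b
    · subst hab
      rw [ordZ_lt_self]
      push_cast
      ring
    · rw [ordZ_lt_ne hab]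
      have h3 := (h2 a b hab).2
      rcases min_le_iff.1 h3 with h4 | h4
      · linarith
      · have := hneg b
        push_cast
        linarith
  · push Not at hpos
    refine ⟨none, 0, le_refl _, fun f hf => ?_⟩
    refine v.ext_res (fun f => 0 * (ordZ none f : ℝ)) (hadd _ _) (hC _ _) (fun b => ?_) hf
    simp only [zero_mul]
    exact le_antisymm (hpos b) (hneg b)

/-- the torus invariant valuation which agrees with `v` on the homogeneous elements -/
theorem exists_inv [IsAlgClosed k] : ∃ (z : Option k) (s : ℝ), 0 ≤ s ∧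
    ∀ (u : Fin r → ℤ) (f : RatFunc k), f ≠ 0 → v.val (single u f) = pr u v.wt + s * ordZ z f := by
  obtain ⟨z, s, hs, h⟩ := v.exists_page
  exact ⟨z, s, hs, fun u f hf => by rw [v.val_single u hf, h f hf]⟩

end RVal

end Pool.Agent.H14.KV
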