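import Pool.Agent.H14.KV.RingDef

/-!
# Graded sequences of ideals, log canonical thresholds (the form used in the proofs)
-/

set_option autoImplicit false

open scoped ENNReal

namespace Pool.Agent.H14.KV

open AddMonoidAlgebra (single)

variable {k : Type} [Field k] {r : ℕ}

theorem single_mem {D : PDiv k r} {F : KM k r} (hF : F ∈ ring D) (u : Fin r → ℤ) :
    single u (F.coeff u) ∈ ring D := by
  classical
  intro u'
  rw [AddMonoidAlgebra.coeff_single, Finsupp.single_apply]
  split_ifs with h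
  · rw [← h]
    exact hF u
  · exact Or.inl rfl

/-! ### ideals and valuations -/

/-- the ideal is invariant under the torus: it contains the homogeneous components of its
elements -/
def Invt {D : PDiv k r} (I : Ideal (ring D)) : Prop :=
  ∀ F ∈ I, ∀ u, ∃ G ∈ I, (G : KM k r) = single u ((F : KM k r).coeff u)

/-- the center of the valuation on `X = Spec R` is the point of the maximal ideal `m` -/
def Centered {D : PDiv k r} (m : Ideal (ring D)) (v : RVal k r) : Prop :=
  ∀ F : ring D, (F : KM k r) ≠ 0 → 0 ≤ v.val F ∧ (0 < v.val F ↔ F ∈ m)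

/-- the center of the valuation on `X = Spec R` contains the point of the maximal ideal `m` -/
def Through {D : PDiv k r} (m : Ideal (ring D)) (v : RVal k r) : Prop :=
  ∀ F : ring D, (F : KM k r) ≠ 0 → 0 ≤ v.val F ∧ (F ∉ m → v.val F = 0)

/-- the valuation is not trivial -/
def NonTriv (v : RVal k r) : Prop := ∃ F : KM k r, F ≠ 0 ∧ v.val F ≠ 0

/-- the pair is klt at the point of `m` -/
def Klt {D : PDiv k r} (P : Pair k r) (m : Ideal (ring D)) : Prop :=
  ∀ v : RVal k r, NonTriv v → Through m v → 0 < logDisc P v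

/-- the coefficient `1 - A(v)` of the boundary at the prime divisor of the vertex `p` at `z`,
whose valuation is `v = page z (μ p) μ`, `μ = mu p`, is not negative -/
def Effective (D : PDiv k r) (P : Pair k r) : Prop :=
  ∀ z, ∀ p ∈ D.V z,
    logDisc P (page z (fun i => (mu p : ℝ) * (p i : ℝ)) (mu p) (Nat.cast_nonneg _)) ≤ 1

/-- a graded sequence of torus invariant `m`-primary ideals -/
structure GSeq {D : PDiv k r} (m : Ideal (ring D)) (a : ℕ → Ideal (ring D)) : Prop where
  mul : ∀ i j, 0 < i → 0 < j → a i * a j ≤ a (i + j)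
  rad : ∀ i, 0 < i → (a i).radical = m
  inv : ∀ i, 0 < i → Invt (a i)

/-- the value of an ideal -/
noncomputable def valI {D : PDiv k r} (v : RVal k r) (I : Ideal (ring D)) : ℝ≥0∞ :=
  ⨅ (F : ring D) (_ : F ∈ I) (_ : (F : KM k r) ≠ 0), ENNReal.ofReal (v.val F)

/-- the value of a graded sequence, `inf v(a_i) / i` -/
noncomputable def valG {D : PDiv k r} (v : RVal k r) (a : ℕ → Ideal (ring D)) : ℝ≥0∞ :=
  ⨅ (i : ℕ) (_ : 0 < i), valI v (a i) / i

/-- the log canonical threshold of a graded sequence -/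
noncomputable def lct {D : PDiv k r} (P : Pair k r) (m : Ideal (ring D))
    (a : ℕ → Ideal (ring D)) : ℝ≥0∞ :=
  ⨅ (v : RVal k r) (_ : Centered m v), logDisc P v / valG v a

/-- the valuations which compute the log canonical threshold -/
def LCP {D : PDiv k r} (P : Pair k r) (m : Ideal (ring D)) (a : ℕ → Ideal (ring D)) :
    Set (RVal k r) :=
  {v | Centered m v ∧ logDisc P v / valG v a = lct P m a}

open Classical in
/-- the sum of the vertices `p z'` at the points `z' ≠ z` (all but finitely many of them are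
`0`) -/
noncomputable def vsum (D : PDiv k r) (z : Option k) (p : Option k → Fin r → ℚ) : Fin r → ℝ :=
  fun i => ∑ z' ∈ D.fin.toFinset.erase z, (p z' i : ℝ)

theorem vmon_zero (D : PDiv k r) (z : Option k) :
    ∃ f : RatFunc k, f ≠ 0 ∧ Sec D (0 : (Fin r → ℤ) × ℤ).1 f ∧
      ordZ z f = (0 : (Fin r → ℤ) × ℤ).2 :=
  ⟨1, one_ne_zero, sec_one D, ordZ_one z⟩

theorem vmon_add (D : PDiv k r) (z : Option k) {x y : (Fin r → ℤ) × ℤ}
    (hx : ∃ f : RatFunc k, f ≠ 0 ∧ Sec D x.1 f ∧ ordZ z f = x.2)
    (hy : ∃ f : RatFunc k, f ≠ 0 ∧ Sec D y.1 f ∧ ordZ z f = y.2) :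
    ∃ f : RatFunc k, f ≠ 0 ∧ Sec D (x + y).1 f ∧ ordZ z f = (x + y).2 := by
  obtain ⟨f, hf, h1, h2⟩ := hx
  obtain ⟨g, hg, h3, h4⟩ := hy
  exact ⟨f * g, mul_ne_zero hf hg, sec_mul h1 h3, by
    rw [ordZ_mul z hf hg, h2, h4]
    rfl⟩

/-- the value monoid of the page `z`: the pairs `(u, j)` for which some `f χ^u` in the ring has
`ord_z f = j` -/
def vmon (D : PDiv k r) (z : Option k) : AddSubmonoid ((Fin r → ℤ) × ℤ) where
  carrier := {x | ∃ f : RatFunc k, f ≠ 0 ∧ Sec D x.1 f ∧ ordZ z f = x.2}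
  zero_mem' := vmon_zero D z
  add_mem' := vmon_add D z

/-- the degeneration of the page `z` is a klt toric variety: the value monoid is finitely
generated and saturated, and the linear form of the log discrepancy is positive on its dual
cone -/
def KltToric (D : PDiv k r) (P : Pair k r) (z : Option k) : Prop :=
  (vmon D z).FG ∧
  (∀ (n : ℕ) (x : (Fin r → ℤ) × ℤ), 0 < n → n • x ∈ vmon D z → x ∈ vmon D z) ∧
  ∀ (w : Fin r → ℝ) (s : ℝ), (w, s) ≠ 0 → (∀ x ∈ vmon D z, 0 ≤ pr x.1 w + s * (x.2 : ℝ)) →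
    0 < lin P z w s

end Pool.Agent.H14.KV
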