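import Pool.Agent.H14.KV.Disc

/-!
# The ring of a polyhedral divisor
-/

set_option autoImplicit false

open scoped ENNReal

namespace Pool.Agent.H14.KV

open AddMonoidAlgebra (single)

variable {k : Type} [Field k] {r : ℕ}

theorem sec_add {D : PDiv k r} {u : Fin r → ℤ} {f g : RatFunc k} (hf : Sec D u f)
    (hg : Sec D u g) : Sec D u (f + g) := by
  rcases hf with hf | hf
  · rwa [hf, zero_add]
  rcases hg with hg | hg
  · rw [hg, add_zero]
    exact Or.inr hf
  by_cases hfg : f + g = 0
  · exact Or.inl hfg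
  by_cases hf0 : f = 0
  · rw [hf0, zero_add]
    exact Or.inr hg
  by_cases hg0 : g = 0
  · rw [hg0, add_zero]
    exact Or.inr hf
  refine Or.inr ⟨hf.1, fun z p hp => ?_⟩
  rcases min_le_iff.1 (ordZ_add z hf0 hg0 hfg) with h | h
  · have h' : (ordZ z f : ℚ) ≤ ordZ z (f + g) := by exact_mod_cast h
    linarith [hf.2 z p hp]
  · have h' : (ordZ z g : ℚ) ≤ ordZ z (f + g) := by exact_mod_cast h
    linarith [hg.2 z p hp]

theorem sec_mul {D : PDiv k r} {u u' : Fin r → ℤ} {f g : RatFunc k} (hf : Sec D u f)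
    (hg : Sec D u' g) : Sec D (u + u') (f * g) := by
  by_cases hf0 : f = 0
  · exact Or.inl (by rw [hf0, zero_mul])
  by_cases hg0 : g = 0
  · exact Or.inl (by rw [hg0, mul_zero])
  rcases hf with hf | hf
  · exact absurd hf hf0
  rcases hg with hg | hg
  · exact absurd hg hg0
  refine Or.inr ⟨fun ρ hρ => ?_, fun z p hp => ?_⟩
  · have h : ∑ i, (u + u') i * ρ i = ∑ i, u i * ρ i + ∑ i, u' i * ρ i := by
      rw [← Finset.sum_add_distrib]
      exact Finset.sum_congr rfl fun i _ => by rw [Pi.add_apply]; ring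
    rw [h]
    exact add_nonneg (hf.1 ρ hρ) (hg.1 ρ hρ)
  · have h : ∑ i, (((u + u') i : ℤ) : ℚ) * p i =
        ∑ i, (u i : ℚ) * p i + ∑ i, (u' i : ℚ) * p i := by
      rw [← Finset.sum_add_distrib]
      exact Finset.sum_congr rfl fun i _ => by rw [Pi.add_apply]; push_cast; ring
    rw [h, ordZ_mul z hf0 hg0]
    push_cast
    linarith [hf.2 z p hp, hg.2 z p hp]

theorem sec_neg {D : PDiv k r} {u : Fin r → ℤ} {f : RatFunc k} (hf : Sec D u f) :
    Sec D u (-f) := by
  rcases hf with hf | hf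
  · exact Or.inl (by rw [hf, neg_zero])
  · exact Or.inr ⟨hf.1, fun z p hp => by rw [ordZ_neg]; exact hf.2 z p hp⟩

theorem sec_one (D : PDiv k r) : Sec D 0 1 := by
  refine Or.inr ⟨fun ρ _ => by simp, fun z p _ => by rw [ordZ_one]; simp⟩

theorem sec_sum {D : PDiv k r} {u : Fin r → ℤ} {ι : Type} (T : Finset ι) (f : ι → RatFunc k)
    (h : ∀ i ∈ T, Sec D u (f i)) : Sec D u (∑ i ∈ T, f i) := by
  classical
  induction T using Finset.induction_on with
  | empty => exact Or.inl (by simp)
  | insert a T ha ih =>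
    rw [Finset.sum_insert ha]
    exact sec_add (h a (Finset.mem_insert_self _ _)) (ih fun i hi =>
      h i (Finset.mem_insert_of_mem hi))

theorem ring_mul (D : PDiv k r) {F G : KM k r} (hF : ∀ u, Sec D u (F.coeff u))
    (hG : ∀ u, Sec D u (G.coeff u)) : ∀ u, Sec D u ((F * G).coeff u) := by
  intro u
  rw [coeff_mul']
  refine sec_sum _ _ fun a _ => ?_
  have h := sec_mul (hF a) (hG (u - a))
  rwa [add_sub_cancel] at h

theorem ring_one (D : PDiv k r) : ∀ u, Sec D u ((1 : KM k r).coeff u) := by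
  classical
  intro u
  have e : (1 : KM k r) = single 0 1 := rfl
  rw [e, AddMonoidAlgebra.coeff_single, Finsupp.single_apply]
  split_ifs with h
  · rw [← h]
    exact sec_one D
  · exact Or.inl rfl

theorem ring_add (D : PDiv k r) {F G : KM k r} (hF : ∀ u, Sec D u (F.coeff u))
    (hG : ∀ u, Sec D u (G.coeff u)) : ∀ u, Sec D u ((F + G).coeff u) := by
  intro u
  have e : (F + G).coeff u = F.coeff u + G.coeff u := by simp
  rw [e]
  exact sec_add (hF u) (hG u)

theorem ring_zero (D : PDiv k r) : ∀ u, Sec D u ((0 : KM k r).coeff u) := fun _ => Or.inl rfl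

theorem ring_neg (D : PDiv k r) {F : KM k r} (hF : ∀ u, Sec D u (F.coeff u)) :
    ∀ u, Sec D u ((-F).coeff u) := by
  intro u
  have e : (-F).coeff u = -(F.coeff u) := by simp
  rw [e]
  exact sec_neg (hF u)

/-- the ring of the polyhedral divisor: all `Σ f_u χ^u` whose coefficients are sections,
`f_u ∈ H^0(P^1, D(u))`, `u` in the dual of the tail cone -/
noncomputable def ring (D : PDiv k r) : Subring (KM k r) where
  carrier := {F | ∀ u, Sec D u (F.coeff u)}
  mul_mem' := ring_mul D
  one_mem' := ring_one D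
  add_mem' := ring_add D
  zero_mem' := ring_zero D
  neg_mem' := ring_neg D

end Pool.Agent.H14.KV
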