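import Pool.Agent.H61.KV.TG

/-!
# Supporting functionals of a closed convex cone
-/

set_option autoImplicit false

open Set

namespace Pool.Agent.H14.KV.SPP

open Pool.Agent.H61.KV

theorem conv {V : Type} [NormedAddCommGroup V] [NormedSpace ℝ V] {C : Set V} (h : IsCC C) :
    Convex ℝ C := by
  intro x hx y hy a b ha hb _
  exact h.add _ (h.smul a ha x hx) _ (h.smul b hb y hy)

theorem pf_SPP : T_SPP := by
  intro V _ _ _ C p hC hspan hp hSp
  have hconv := conv hC
  have hint : (interior C).Nonempty := by
    rw [hconv.interior_nonempty_iff_affineSpan_eq_top,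
      AffineSubspace.affineSpan_eq_top_iff_vectorSpan_eq_top_of_nonempty ℝ V V ⟨0, hC.zero⟩,
      vectorSpan_eq_span_vsub_set_right ℝ hC.zero]
    simpa using hspan
  have hpi : p ∉ interior C := by
    intro hpi
    apply hSp
    rw [eq_top_iff, ← hspan]
    apply Submodule.span_le.mpr
    intro v hv
    apply Submodule.subset_span
    refine ⟨hv, ?_⟩
    have hcont : Filter.Tendsto (fun δ : ℝ => p - δ • v) (nhds 0) (nhds (p - (0 : ℝ) • v)) := by
      apply Continuous.tendsto
      fun_prop
    rw [zero_smul, sub_zero] at hcont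
    have hev := hcont (isOpen_interior.mem_nhds hpi)
    obtain ⟨ε, hε, hb⟩ := Metric.eventually_nhds_iff.mp hev
    have h1 : p - (ε / 2) • v ∈ C := by
      apply interior_subset
      apply hb
      rw [Real.dist_eq, sub_zero, abs_of_pos (by linarith)]
      linarith
    refine ⟨(ε / 2)⁻¹, by positivity, ?_⟩
    have h2 := hC.smul (ε / 2)⁻¹ (by positivity) _ h1
    rwa [smul_sub, smul_smul, inv_mul_cancel₀ (by positivity), one_smul] at h2
  obtain ⟨f, hf⟩ := geometric_hahn_banach_open_point hconv.interior isOpen_interior hpi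
  have hle : ∀ a ∈ C, f a ≤ f p := by
    have h1 : C ⊆ closure (interior C) := by
      rw [hconv.closure_interior_eq_closure_of_nonempty_interior hint]
      exact subset_closure
    have h2 : closure (interior C) ⊆ {a | f a ≤ f p} :=
      closure_minimal (fun a ha => (hf a ha).le) (isClosed_le f.continuous continuous_const)
    exact fun a ha => h2 (h1 ha)
  have h0 : 0 ≤ f p := by
    have := hle 0 hC.zero
    rwa [map_zero] at this
  have hle0 : ∀ a ∈ C, f a ≤ 0 := by
    intro a ha
    by_contra hcon
    rw [not_le] at hcon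
    have h1 := hle (((f p + 1) / f a) • a) (hC.smul _ (by positivity) a ha)
    rw [map_smul, smul_eq_mul, div_mul_cancel₀ _ hcon.ne'] at h1
    linarith
  have hp0 : f p = 0 := le_antisymm (hle0 p hp) h0
  refine ⟨-(f : V →ₗ[ℝ] ℝ), ?_, ?_, ?_⟩
  · intro h
    obtain ⟨i, hi⟩ := hint
    have h1 := hf i hi
    rw [hp0] at h1
    have h2 : (-(f : V →ₗ[ℝ] ℝ)) i = 0 := by rw [h]; rfl
    simp at h2
    linarith
  · intro q hq
    have := hle0 q hq
    simp
    exact this
  · simp [hp0]

end Pool.Agent.H14.KV.SPP
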