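import Pool.Agent.H14.KV.Ord

/-!
# The torus invariant valuations
-/

set_option autoImplicit false

namespace Pool.Agent.H14.KV

open AddMonoidAlgebra (single)

variable {k : Type} [Field k] {r : ℕ}

/-- predicates which pass to sums -/
theorem sum_pred {A ι : Type} [AddCommMonoid A] (P : A → Prop)
    (hP : ∀ f g, f ≠ 0 → g ≠ 0 → f + g ≠ 0 → P f → P g → P (f + g)) (T : Finset ι) (f : ι → A)
    (hf : ∀ i ∈ T, f i ≠ 0 → P (f i)) (h : ∑ i ∈ T, f i ≠ 0) : P (∑ i ∈ T, f i) := by
  classical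
  induction T using Finset.induction_on with
  | empty => simp at h
  | insert a T ha ih =>
    rw [Finset.sum_insert ha] at h ⊢
    have hf' : ∀ i ∈ T, f i ≠ 0 → P (f i) := fun i hi => hf i (Finset.mem_insert_of_mem hi)
    by_cases h1 : f a = 0
    · rw [h1, zero_add] at h ⊢
      exact ih hf' h
    · by_cases h2 : ∑ i ∈ T, f i = 0
      · rw [h2, add_zero]
        exact hf a (Finset.mem_insert_self _ _) h1
      · exact hP _ _ h1 h2 h (hf a (Finset.mem_insert_self _ _) h1) (ih hf' h2)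

theorem pr_add (u u' : Fin r → ℤ) (w : Fin r → ℝ) : pr (u + u') w = pr u w + pr u' w := by
  unfold pr
  rw [← Finset.sum_add_distrib]
  refine Finset.sum_congr rfl fun i _ => ?_
  rw [Pi.add_apply]
  push_cast
  ring

theorem pr_zero (w : Fin r → ℝ) : pr (0 : Fin r → ℤ) w = 0 := by
  unfold pr
  simp

theorem coeff_ne {F : KM k r} (h : F ≠ 0) : F.coeff.support.Nonempty := by
  rw [Finset.nonempty_iff_ne_empty]
  intro h0
  rw [Finsupp.support_eq_empty] at h0
  apply h
  ext u
  rw [h0]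
  rfl

theorem ne_of_coeff {F : KM k r} {u : Fin r → ℤ} (h : F.coeff u ≠ 0) : F ≠ 0 := by
  rintro rfl
  exact h rfl

theorem pageVal_le (z : Option k) (w : Fin r → ℝ) (s : ℝ) {F : KM k r} {u : Fin r → ℤ}
    (hu : F.coeff u ≠ 0) : pageVal z w s F ≤ pr u w + s * ordZ z (F.coeff u) := by
  have h : u ∈ F.coeff.support := Finsupp.mem_support_iff.2 hu
  unfold pageVal
  rw [dif_pos ⟨u, h⟩]
  exact Finset.inf'_le (fun u => pr u w + s * ordZ z (F.coeff u)) h

theorem le_pageVal (z : Option k) (w : Fin r → ℝ) (s : ℝ) {F : KM k r} (hF : F ≠ 0) {B : ℝ}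
    (h : ∀ u, F.coeff u ≠ 0 → B ≤ pr u w + s * ordZ z (F.coeff u)) : B ≤ pageVal z w s F := by
  unfold pageVal
  rw [dif_pos (coeff_ne hF)]
  exact Finset.le_inf' _ _ fun u hu => h u (Finsupp.mem_support_iff.1 hu)

theorem pageVal_mem (z : Option k) (w : Fin r → ℝ) (s : ℝ) {F : KM k r} (hF : F ≠ 0) :
    ∃ u, F.coeff u ≠ 0 ∧ pageVal z w s F = pr u w + s * ordZ z (F.coeff u) := by
  unfold pageVal
  rw [dif_pos (coeff_ne hF)]
  obtain ⟨u, hu, h⟩ := Finset.exists_mem_eq_inf' (coeff_ne hF)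
    (fun u => pr u w + s * ordZ z (F.coeff u))
  exact ⟨u, Finsupp.mem_support_iff.1 hu, h⟩

theorem single_ne {u : Fin r → ℤ} {f : RatFunc k} (hf : f ≠ 0) : (single u f : KM k r) ≠ 0 := by
  apply ne_of_coeff (u := u)
  simpa using hf

theorem coeff_single_self (u : Fin r → ℤ) (f : RatFunc k) :
    (single u f : KM k r).coeff u = f := by simp

theorem coeff_single_ne {u u' : Fin r → ℤ} {f : RatFunc k}
    (h : (single u f : KM k r).coeff u' ≠ 0) : u' = u := by
  by_contra hne
  apply h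
  rw [AddMonoidAlgebra.coeff_single, Finsupp.single_apply, if_neg fun h' => hne h'.symm]

theorem pageVal_single (z : Option k) (w : Fin r → ℝ) (s : ℝ) (u : Fin r → ℤ) {f : RatFunc k}
    (hf : f ≠ 0) : pageVal z w s (single u f) = pr u w + s * ordZ z f := by
  apply le_antisymm
  · have h := pageVal_le z w s (F := single u f) (u := u) (by rwa [coeff_single_self])
    rwa [coeff_single_self] at h
  · refine le_pageVal z w s (single_ne hf) fun u' hu' => ?_
    have h := coeff_single_ne hu'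
    subst h
    rw [coeff_single_self]

theorem coeff_mul' (F G : KM k r) (u : Fin r → ℤ) :
    (F * G).coeff u = ∑ a ∈ F.coeff.support, F.coeff a * G.coeff (u - a) := by
  rw [AddMonoidAlgebra.coeff_mul_apply_left, Finsupp.sum]
  refine Finset.sum_congr rfl fun a _ => ?_
  rw [neg_add_eq_sub]

theorem pageVal_mul (z : Option k) (w : Fin r → ℝ) {s : ℝ} (hs : 0 ≤ s) {F G : KM k r}
    (hF : F ≠ 0) (hG : G ≠ 0) : F * G ≠ 0 ∧
      pageVal z w s (F * G) = pageVal z w s F + pageVal z w s G := by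
  classical
  obtain ⟨u₁, hu₁, e₁⟩ := pageVal_mem z w s hF
  obtain ⟨u₂, hu₂, e₂⟩ := pageVal_mem z w s hG
  obtain ⟨a₀, ha₀, hamin⟩ := Finset.exists_min_image
    (F.coeff.support.filter fun u => pageVal z w s F = pr u w + s * ordZ z (F.coeff u)) toLex
    ⟨u₁, Finset.mem_filter.2 ⟨Finsupp.mem_support_iff.2 hu₁, e₁⟩⟩
  obtain ⟨b₀, hb₀, hbmin⟩ := Finset.exists_min_image
    (G.coeff.support.filter fun u => pageVal z w s G = pr u w + s * ordZ z (G.coeff u)) toLex
    ⟨u₂, Finset.mem_filter.2 ⟨Finsupp.mem_support_iff.2 hu₂, e₂⟩⟩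
  rw [Finset.mem_filter, Finsupp.mem_support_iff] at ha₀ hb₀
  have hT : F.coeff a₀ * G.coeff b₀ ≠ 0 := mul_ne_zero ha₀.1 hb₀.1
  -- the other terms of the coefficient of `a₀ + b₀`
  have hoth : ∀ a ∈ F.coeff.support.erase a₀, F.coeff a * G.coeff (a₀ + b₀ - a) ≠ 0 →
      ordZ z (F.coeff a₀ * G.coeff b₀) < ordZ z (F.coeff a * G.coeff (a₀ + b₀ - a)) := by
    intro a ha hne
    rw [Finset.mem_erase, Finsupp.mem_support_iff] at ha
    have hGa : G.coeff (a₀ + b₀ - a) ≠ 0 := right_ne_zero_of_mul hne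
    rw [ordZ_mul z ha₀.1 hb₀.1, ordZ_mul z ha.2 hGa]
    have h1 := pageVal_le z w s ha.2
    have h2 := pageVal_le z w s hGa
    have hlt : pageVal z w s F + pageVal z w s G < (pr a w + s * ordZ z (F.coeff a)) +
        (pr (a₀ + b₀ - a) w + s * ordZ z (G.coeff (a₀ + b₀ - a))) := by
      rcases lt_or_eq_of_le h1 with h3 | h3
      · exact add_lt_add_of_lt_of_le h3 h2
      rcases lt_or_eq_of_le h2 with h4 | h4
      · exact add_lt_add_of_le_of_lt h1 h4
      exfalso
      have h5 := hamin a (Finset.mem_filter.2 ⟨Finsupp.mem_support_iff.2 ha.2, h3⟩)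
      have h6 := hbmin _ (Finset.mem_filter.2 ⟨Finsupp.mem_support_iff.2 hGa, h4⟩)
      have h7 : toLex a₀ < toLex a := lt_of_le_of_ne h5 fun h => ha.1 (toLex.injective h).symm
      have h8 := add_lt_add_of_lt_of_le h7 h6
      have h9 : toLex a + toLex (a₀ + b₀ - a) = toLex a₀ + toLex b₀ := by
        rw [← toLex_add, ← toLex_add]
        congr 1
        ring
      rw [h9] at h8
      exact lt_irrefl _ h8
    have h10 : pr a w + pr (a₀ + b₀ - a) w = pr a₀ w + pr b₀ w := by
      rw [← pr_add, ← pr_add]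
      congr 1
      ring
    rw [ha₀.2, hb₀.2] at hlt
    have h11 : s * ((ordZ z (F.coeff a₀) + ordZ z (G.coeff b₀) : ℤ) : ℝ) <
        s * ((ordZ z (F.coeff a) + ordZ z (G.coeff (a₀ + b₀ - a)) : ℤ) : ℝ) := by
      push_cast
      linarith
    exact_mod_cast lt_of_mul_lt_mul_left h11 hs
  have hcoef : (F * G).coeff (a₀ + b₀) ≠ 0 ∧
      ordZ z ((F * G).coeff (a₀ + b₀)) = ordZ z (F.coeff a₀ * G.coeff b₀) := by
    have e : (F * G).coeff (a₀ + b₀) = F.coeff a₀ * G.coeff b₀ +
        ∑ a ∈ F.coeff.support.erase a₀, F.coeff a * G.coeff (a₀ + b₀ - a) := by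
      rw [coeff_mul', ← Finset.add_sum_erase _ _ (Finsupp.mem_support_iff.2 ha₀.1)]
      congr 3
      ring
    rw [e]
    refine ordZ_add_lt z hT fun hne => ?_
    refine sum_pred (fun f => ordZ z (F.coeff a₀ * G.coeff b₀) < ordZ z f)
      (fun f g hf hg hfg h1 h2 => ?_) _ _ hoth hne
    exact lt_of_lt_of_le (lt_min h1 h2) (ordZ_add z hf hg hfg)
  have hne : F * G ≠ 0 := ne_of_coeff hcoef.1
  refine ⟨hne, le_antisymm ?_ ?_⟩
  · refine (pageVal_le z w s hcoef.1).trans (le_of_eq ?_)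
    rw [hcoef.2, ordZ_mul z ha₀.1 hb₀.1, ha₀.2, hb₀.2, pr_add]
    push_cast
    ring
  · refine le_pageVal z w s hne fun u hu => ?_
    rw [coeff_mul'] at hu ⊢
    refine sum_pred (fun f => pageVal z w s F + pageVal z w s G ≤ pr u w + s * ordZ z f)
      (fun f g hf hg hfg h1 h2 => ?_) _ _ (fun a ha hne => ?_) hu
    · have h3 := ordZ_add z hf hg hfg
      rcases min_le_iff.1 h3 with h4 | h4
      · refine h1.trans ?_
        have : s * (ordZ z f : ℝ) ≤ s * ordZ z (f + g) :=
          mul_le_mul_of_nonneg_left (by exact_mod_cast h4) hs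
        linarith
      · refine h2.trans ?_
        have : s * (ordZ z g : ℝ) ≤ s * ordZ z (f + g) :=
          mul_le_mul_of_nonneg_left (by exact_mod_cast h4) hs
        linarith
    · have hFa : F.coeff a ≠ 0 := left_ne_zero_of_mul hne
      have hGa : G.coeff (u - a) ≠ 0 := right_ne_zero_of_mul hne
      have h1 := pageVal_le z w s hFa
      have h2 := pageVal_le z w s hGa
      have h3 : pr a w + pr (u - a) w = pr u w := by
        rw [← pr_add]
        congr 1
        ring
      rw [ordZ_mul z hFa hGa]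
      push_cast
      linarith

theorem pageVal_add (z : Option k) (w : Fin r → ℝ) {s : ℝ} (hs : 0 ≤ s) {F G : KM k r}
    (hFG : F + G ≠ 0) :
    min (pageVal z w s F) (pageVal z w s G) ≤ pageVal z w s (F + G) := by
  refine le_pageVal z w s hFG fun u hu => ?_
  have e : (F + G).coeff u = F.coeff u + G.coeff u := by simp
  rw [e] at hu ⊢
  by_cases h1 : F.coeff u = 0
  · rw [h1, zero_add] at hu ⊢
    exact (min_le_right _ _).trans (pageVal_le z w s hu)
  by_cases h2 : G.coeff u = 0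
  · rw [h2, add_zero] at hu ⊢
    exact (min_le_left _ _).trans (pageVal_le z w s hu)
  rcases min_le_iff.1 (ordZ_add z h1 h2 hu) with h4 | h4
  · refine (min_le_left _ _).trans ((pageVal_le z w s h1).trans ?_)
    have : s * (ordZ z (F.coeff u) : ℝ) ≤ s * ordZ z (F.coeff u + G.coeff u) :=
      mul_le_mul_of_nonneg_left (by exact_mod_cast h4) hs
    linarith
  · refine (min_le_right _ _).trans ((pageVal_le z w s h2).trans ?_)
    have : s * (ordZ z (G.coeff u) : ℝ) ≤ s * ordZ z (F.coeff u + G.coeff u) :=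
      mul_le_mul_of_nonneg_left (by exact_mod_cast h4) hs
    linarith

theorem pageVal_mul' (z : Option k) (w : Fin r → ℝ) {s : ℝ} (hs : 0 ≤ s) (F G : KM k r)
    (hF : F ≠ 0) (hG : G ≠ 0) : pageVal z w s (F * G) = pageVal z w s F + pageVal z w s G :=
  (pageVal_mul z w hs hF hG).2

theorem pageVal_add' (z : Option k) (w : Fin r → ℝ) {s : ℝ} (hs : 0 ≤ s) (F G : KM k r)
    (_ : F ≠ 0) (_ : G ≠ 0) (hFG : F + G ≠ 0) :
    min (pageVal z w s F) (pageVal z w s G) ≤ pageVal z w s (F + G) :=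
  pageVal_add z w hs hFG

theorem pageVal_C (z : Option k) (w : Fin r → ℝ) (s : ℝ) (c : k) (hc : c ≠ 0) :
    pageVal z w s (single 0 (RatFunc.C c) : KM k r) = 0 := by
  have h0 : (RatFunc.C c : RatFunc k) ≠ 0 := by simpa using hc
  rw [pageVal_single z w s 0 h0, pr_zero, ordZ_C z hc]
  simp

/-- the valuation of the page `z` with the parameters `w`, `s ≥ 0`; for `s = 0` it does not depend
on `z` (the spine) -/
noncomputable def page (z : Option k) (w : Fin r → ℝ) (s : ℝ) (hs : 0 ≤ s) : RVal k r where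
  val := pageVal z w s
  mul := pageVal_mul' z w hs
  add := pageVal_add' z w hs
  triv := pageVal_C z w s

instance : IsDomain (KM k r) := by
  have h1 : NoZeroDivisors (KM k r) := ⟨fun {F G} h => by
    by_contra hne
    push Not at hne
    exact (pageVal_mul (none : Option k) (0 : Fin r → ℝ) (le_refl (0 : ℝ)) hne.1 hne.2).1 h⟩
  exact NoZeroDivisors.to_isDomain _

end Pool.Agent.H14.KV
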