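import Pool.Agent.H14.KV.Gord

/-!
# Homogeneous elements of nonzero degree are in an invariant maximal ideal
-/

set_option autoImplicit false

open scoped ENNReal

namespace Pool.Agent.H14.KV

open AddMonoidAlgebra (single)

variable {k : Type} [Field k] {r : ℕ} {D : PDiv k r}

/-- the homogeneous component of degree `u`, as an element of the ring -/
noncomputable def cmp (F : ring D) (u : Fin r → ℤ) : ring D :=
  ⟨single u ((F : KM k r).coeff u), single_mem F.2 u⟩

theorem cmp_mem {m : Ideal (ring D)} (hmT : Invt m) {F : ring D} (hF : F ∈ m)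
    (u : Fin r → ℤ) : cmp F u ∈ m := by
  obtain ⟨G, hG, hGe⟩ := hmT F hF u
  have h : cmp F u = G := Subtype.ext hGe.symm
  rwa [h]

theorem coeff_single_mul' (u₀ : Fin r → ℤ) {f : RatFunc k} (hf : f ≠ 0) (H : KM k r)
    (u : Fin r → ℤ) : ((single u₀ f : KM k r) * H).coeff u = f * H.coeff (u - u₀) := by
  rw [coeff_mul']
  have h : (single u₀ f : KM k r).coeff.support = {u₀} := by
    rw [AddMonoidAlgebra.coeff_single]
    exact Finsupp.support_single _ hf
  rw [h, Finset.sum_singleton, coeff_single_self]

theorem mem_of_ne [IsAlgClosed k] {m : Ideal (ring D)} (hm : m.IsMaximal) (hmT : Invt m)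
    {u₀ : Fin r → ℤ} (hu₀ : u₀ ≠ 0) {f : RatFunc k} (hf : f ≠ 0) {x : ring D}
    (hx : (x : KM k r) = single u₀ f) : x ∈ m := by
  classical
  by_contra hxm
  have hprime := hm.isPrime
  have hinj : Function.Injective fun n : ℤ => n • u₀ := fun a b hab => by
    by_contra hne
    obtain ⟨i, hi⟩ := Function.ne_iff.1 hu₀
    have h1 : a * u₀ i = b * u₀ i := by
      have := congrFun hab i
      simpa using this
    exact hne (mul_right_cancel₀ hi h1)
  -- `1 - x` is not in `m`
  have h1x : (1 - x : ring D) ∉ m := by
    intro h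
    have h1 := cmp_mem hmT h 0
    have e : cmp (1 - x) 0 = 1 := by
      apply Subtype.ext
      have e1 : ((1 - x : ring D) : KM k r).coeff 0 = 1 := by
        have e2 : ((1 - x : ring D) : KM k r) = 1 - single u₀ f := by
          rw [← hx]
          rfl
        rw [e2]
        have e3 : (1 : KM k r) = single 0 1 := rfl
        rw [e3, AddMonoidAlgebra.coeff_sub, Finsupp.sub_apply, coeff_single_self,
          AddMonoidAlgebra.coeff_single, Finsupp.single_apply, if_neg hu₀, sub_zero]
      change (single 0 (((1 - x : ring D) : KM k r).coeff 0) : KM k r) = 1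
      rw [e1]
      rfl
    rw [e] at h1
    exact hm.ne_top ((Ideal.eq_top_iff_one _).2 h1)
  obtain ⟨H, M, hM, hHM⟩ := Ideal.IsMaximal.exists_inv hm h1x
  set φ := Ideal.Quotient.mk m with hφ
  set h : ℤ → (ring D ⧸ m) := fun n => φ (cmp H (n • u₀)) with hh
  have hrel : ∀ n : ℤ, h n = φ x * h (n - 1) + (if n = 0 then 1 else 0) := by
    intro n
    have h2 : cmp M (n • u₀) = (if n = 0 then 1 else 0) -
        (cmp H (n • u₀) - x * cmp H ((n - 1) • u₀)) := by
      apply Subtype.ext
      have e1 : (M : KM k r) = 1 - (H - single u₀ f * H) := by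
        have e2 : M = 1 - (H - x * H) := by
          rw [← hHM]
          ring
        rw [e2, ← hx]
        rfl
      have e3 : ((if n = 0 then (1 : ring D) else 0 : ring D) : KM k r) =
          single (n • u₀) ((1 : KM k r).coeff (n • u₀)) := by
        have e4 : (1 : KM k r) = single 0 1 := rfl
        split_ifs with hn
        · rw [hn, zero_smul, e4, coeff_single_self]
          rfl
        · rw [e4, AddMonoidAlgebra.coeff_single, Finsupp.single_apply, if_neg,
            AddMonoidAlgebra.single_zero]
          · rfl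
          · intro h0
            apply hn
            apply hinj
            simp only
            rw [← h0, zero_smul]
      change (single (n • u₀) ((M : KM k r).coeff (n • u₀)) : KM k r) =
        ((if n = 0 then (1 : ring D) else 0 : ring D) : KM k r) -
          (single (n • u₀) ((H : KM k r).coeff (n • u₀)) -
            x * single ((n - 1) • u₀) ((H : KM k r).coeff ((n - 1) • u₀)))
      rw [e3, hx, AddMonoidAlgebra.single_mul_single, e1]
      have e5 : u₀ + (n - 1) • u₀ = n • u₀ := by
        rw [sub_smul, one_smul]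
        abel
      have e6 : n • u₀ - u₀ = (n - 1) • u₀ := by
        rw [sub_smul, one_smul]
      rw [e5, ← AddMonoidAlgebra.single_sub, ← AddMonoidAlgebra.single_sub]
      congr 1
      rw [AddMonoidAlgebra.coeff_sub, Finsupp.sub_apply, AddMonoidAlgebra.coeff_sub,
        Finsupp.sub_apply, coeff_single_mul' u₀ hf, e6]
    have h3 : φ (cmp M (n • u₀)) = 0 :=
      Ideal.Quotient.eq_zero_iff_mem.2 (cmp_mem hmT hM _)
    rw [h2, map_sub, map_sub, map_mul] at h3
    have h4 : φ (if n = 0 then 1 else 0) = if n = 0 then 1 else 0 := by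
      split_ifs
      · exact map_one _
      · exact map_zero _
    rw [h4] at h3
    rw [hh]
    simp only
    linear_combination -h3
  have hfin : {n | h n ≠ 0}.Finite := by
    refine ((Finset.finite_toSet (H : KM k r).coeff.support).preimage hinj.injOn).subset ?_
    intro n hn
    simp only [Set.mem_preimage, Finset.mem_coe, Finsupp.mem_support_iff]
    intro h0
    apply hn
    have : cmp H (n • u₀) = 0 := by
      apply Subtype.ext
      change (single (n • u₀) ((H : KM k r).coeff (n • u₀)) : KM k r) = 0
      rw [h0, AddMonoidAlgebra.single_zero]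
    rw [hh]
    simp only
    rw [this, map_zero]
  have hne : {n | h n ≠ 0}.Nonempty := by
    by_contra hcon
    rw [Set.not_nonempty_iff_eq_empty] at hcon
    have h0 : ∀ n, h n = 0 := fun n => by
      by_contra hn
      have : n ∈ {n | h n ≠ 0} := hn
      rw [hcon] at this
      exact this
    have h1 := hrel 0
    rw [h0, h0, mul_zero, zero_add, if_pos rfl] at h1
    exact zero_ne_one h1
  obtain ⟨n₁, hn₁, hmax⟩ := Set.exists_max_image _ id hfin hne
  obtain ⟨n₀, hn₀, hmin⟩ := Set.exists_min_image _ id hfin hne
  have hx0 : φ x ≠ 0 := fun h0 => hxm (Ideal.Quotient.eq_zero_iff_mem.1 h0)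
  have hA : n₁ = -1 := by
    have h1 := hrel (n₁ + 1)
    have h2 : h (n₁ + 1) = 0 := by
      by_contra hcon
      have := hmax (n₁ + 1) hcon
      simp only [id] at this
      omega
    rw [h2, add_sub_cancel_right] at h1
    by_contra hcon
    rw [if_neg (by omega), add_zero] at h1
    exact (mul_ne_zero hx0 hn₁) h1.symm
  have hB : n₀ = 0 := by
    have h1 := hrel n₀
    have h2 : h (n₀ - 1) = 0 := by
      by_contra hcon
      have := hmin (n₀ - 1) hcon
      simp only [id] at this
      omega
    rw [h2, mul_zero, zero_add] at h1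
    by_contra hcon
    rw [if_neg hcon] at h1
    exact hn₀ h1
  have := hmin n₁ hn₁
  simp only [id] at this
  omega

/-- sections of degree `0` are constants -/
theorem ord_zero_of_sec [IsAlgClosed k] {f : RatFunc k} (hf : f ≠ 0) (hs : Sec D 0 f)
    (z : Option k) : ordZ z f = 0 := by
  classical
  have hs' := hs.resolve_left hf
  have h0 : ∀ z, 0 ≤ ordZ z f := by
    intro z
    obtain ⟨p, hp⟩ := D.nonempty z
    have := hs'.2 z p hp
    simp only [Pi.zero_apply, Int.cast_zero, zero_mul, Finset.sum_const_zero, add_zero] at this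
    exact_mod_cast this
  have h1 := sum_ord f ((fin_ord f).toFinset ∪ {z}) fun z' hz' => by
    rw [Finset.mem_union, Set.Finite.mem_toFinset]
    exact Or.inl hz'
  exact (Finset.sum_eq_zero_iff_of_nonneg fun z' _ => h0 z').1 h1 z (by simp)

theorem through_of_nonneg [IsAlgClosed k] {m : Ideal (ring D)} (hm : m.IsMaximal)
    (hmT : Invt m) {z : Option k} {w : Fin r → ℝ} {s : ℝ} (hs : 0 ≤ s)
    (h : ∀ F : ring D, (F : KM k r) ≠ 0 → 0 ≤ pageVal z w s (F : KM k r)) :
    Through m (page z w s hs) := by
  intro F hF
  refine ⟨h F hF, fun hFm => le_antisymm ?_ (h F hF)⟩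
  have h0 : (F : KM k r).coeff 0 ≠ 0 := by
    intro h0
    apply hFm
    refine mem_of_comp fun u hu => ⟨cmp F u, ?_, rfl⟩
    exact mem_of_ne hm hmT (fun hu0 => hu (by rw [hu0]; exact h0)) hu rfl
  refine (pageVal_le z w s h0).trans ?_
  rw [ord_zero_of_sec h0 (F.2 0) z, pr_zero]
  simp

end Pool.Agent.H14.KV
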